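import Pool.Agent.Lib.MP_21a058_co.P.Rado

/-!
# Rounding `a` disjoint bases to one base, thin for a laminar family of vertex sets

`p e` is one end of the edge `e`. If `B 0, ..., B (a-1)` are disjoint bases of a matroid on the
edges, there is a base inside their union in which, for every member `W` of a laminar family, the
number of edges with `p e` in `W` is at most the average (rounded up) of the `B i`.
-/

namespace Pool.Agent.Lib.MP_21a058_co.Thin

open Finset MP21a058

section par

variable {V : Type*} [Fintype V] [DecidableEq V] {F : Finset (Finset V)}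

theorem one_exists_par (hne : ∀ W ∈ F, W.Nonempty)
    (hlam : ∀ Z ∈ F, ∀ Z' ∈ F, Z ⊆ Z' ∨ Z' ⊆ Z ∨ Disjoint Z Z') (htop : univ ∈ F) :
    ∃ par : Finset V → Finset V, ∀ W ∈ F, W ≠ univ →
      par W ∈ F ∧ W ⊂ par W ∧ ∀ Z ∈ F, W ⊂ Z → par W ⊆ Z := by
  have h : ∀ W : Finset V, ∃ P : Finset V, W ∈ F → W ≠ univ →
      P ∈ F ∧ W ⊂ P ∧ ∀ Z ∈ F, W ⊂ Z → P ⊆ Z := by
    intro W
    by_cases hW : W ∈ F ∧ W ≠ univ
    · have h1 : (F.filter fun Z => W ⊂ Z).Nonempty :=
        ⟨univ, mem_filter.2 ⟨htop, (subset_univ W).ssubset_of_ne hW.2⟩⟩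
      obtain ⟨P, hP, hmin⟩ := exists_min_image (F.filter fun Z => W ⊂ Z) card h1
      rw [mem_filter] at hP
      refine ⟨P, fun _ _ => ⟨hP.1, hP.2, ?_⟩⟩
      intro Z hZ hWZ
      have h2 := hmin Z (mem_filter.2 ⟨hZ, hWZ⟩)
      rcases hlam P hP.1 Z hZ with h3 | h3 | h3
      · exact h3
      · exact (eq_of_subset_of_card_le h3 h2).symm.subset
      · obtain ⟨x, hx⟩ := hne W hW.1
        exact absurd (hWZ.1 hx) (disjoint_left.1 h3 (hP.2.1 hx))
    · exact ⟨W, fun h1 h2 => absurd ⟨h1, h2⟩ hW⟩
  choose par hpar using h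
  exact ⟨par, fun W h1 h2 => hpar W h1 h2⟩

/-- every point of `Y` lies in a child of `Y`, or `Y` is the point -/
theorem one_exists_child (hs : ∀ x, {x} ∈ F) {par : Finset V → Finset V}
    (hpar : ∀ W ∈ F, W ≠ univ → par W ∈ F ∧ W ⊂ par W ∧ ∀ Z ∈ F, W ⊂ Z → par W ⊆ Z)
    {Y : Finset V} (hY : Y ∈ F) {x : V} (hx : x ∈ Y) (hxY : {x} ≠ Y) :
    ∃ W ∈ F, W ≠ univ ∧ par W = Y ∧ x ∈ W ∧ W ⊂ Y := by
  have h1 : (F.filter fun Z => x ∈ Z ∧ Z ⊂ Y).Nonempty :=
    ⟨{x}, mem_filter.2 ⟨hs x, mem_singleton_self x,
      (singleton_subset_iff.2 hx).ssubset_of_ne hxY⟩⟩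
  obtain ⟨W, hW, hmax⟩ := exists_max_image (F.filter fun Z => x ∈ Z ∧ Z ⊂ Y) card h1
  rw [mem_filter] at hW
  obtain ⟨hWF, hxW, hWY⟩ := hW
  have hWu : W ≠ univ := by
    rintro rfl
    exact hWY.2 (subset_univ Y)
  obtain ⟨h2, h3, h4⟩ := hpar W hWF hWu
  refine ⟨W, hWF, hWu, ?_, hxW, hWY⟩
  by_contra hne
  have h5 : par W ⊂ Y := (h4 Y hY hWY).ssubset_of_ne hne
  have h6 := hmax (par W) (mem_filter.2 ⟨h2, h3.1 hxW, h5⟩)
  have h7 := card_lt_card h3
  omega

end par

section rank

variable {E : Type*} [DecidableEq E] {r : Finset E → ℕ} {T : Type*} [DecidableEq T]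

/-- a matroid plus a pair of parallel elements for every element of `T` -/
def oneR (r : Finset E → ℕ) (X : Finset (E ⊕ (T × Bool))) : ℕ :=
  r X.toLeft + (X.toRight.image Prod.fst).card

theorem oneR_rk (h : Rk r) : Rk (oneR (T := T) r) := by
  constructor
  · have h1 : (∅ : Finset (E ⊕ (T × Bool))).toLeft = ∅ := by
      ext x
      simp
    have h2 : (∅ : Finset (E ⊕ (T × Bool))).toRight = ∅ := by
      ext x
      simp
    simp [oneR, h1, h2, h.emp]
  · intro s t hst
    exact Nat.add_le_add (h.mono _ _ (toLeft_subset_toLeft hst))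
      (card_le_card (image_subset_image (toRight_subset_toRight hst)))
  · intro s e
    rcases e with e | e
    · have h1 := h.one s.toLeft e
      simp only [oneR, toLeft_insert_inl, toRight_insert_inl]
      omega
    · have h1 : (insert e.1 (s.toRight.image Prod.fst)).card ≤
          (s.toRight.image Prod.fst).card + 1 := card_insert_le _ _
      simp only [oneR, toLeft_insert_inr, toRight_insert_inr, image_insert]
      omega
  · intro s t
    have h1 := h.sub s.toLeft t.toLeft
    have h2 := card_union_add_card_inter (s.toRight.image Prod.fst) (t.toRight.image Prod.fst)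
    have h3 : ((s.toRight ∩ t.toRight).image Prod.fst).card ≤
        (s.toRight.image Prod.fst ∩ t.toRight.image Prod.fst).card :=
      card_le_card (image_inter_subset _ _ _)
    simp only [oneR, toLeft_union, toRight_union, toLeft_inter, toRight_inter, image_union]
    omega

/-- a subset of an independent set is independent -/
theorem one_card_inter_le (h : Rk r) {B : Finset E} (hB : r B = B.card) (S : Finset E) :
    (B ∩ S).card ≤ r S := by
  have h1 := h.union_le (B ∩ S) (B \ S)
  have h2 : (B ∩ S) ∪ (B \ S) = B := by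
    rw [union_comm]
    exact sdiff_union_inter B S
  have h3 : (B \ S).card + (B ∩ S).card = B.card := card_sdiff_add_card_inter B S
  have h4 := h.mono _ _ (inter_subset_right (s₁ := B) (s₂ := S))
  rw [h2] at h1
  omega

/-- `a` disjoint bases: the average of a set is at most its rank -/
theorem one_card_le (h : Rk r) {a : ℕ} {B : Fin a → Finset E} (hB : ∀ i, r (B i) = (B i).card)
    {S : Finset E} (hS : S ⊆ univ.biUnion B) : S.card ≤ a * r S := by
  have h1 : S ⊆ univ.biUnion fun i => B i ∩ S := by
    intro e he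
    obtain ⟨i, -, hi⟩ := mem_biUnion.1 (hS he)
    exact mem_biUnion.2 ⟨i, mem_univ i, mem_inter.2 ⟨hi, he⟩⟩
  calc S.card ≤ (univ.biUnion fun i => B i ∩ S).card := card_le_card h1
    _ ≤ ∑ i : Fin a, (B i ∩ S).card := card_biUnion_le
    _ ≤ ∑ _i : Fin a, r S := sum_le_sum fun i _ => one_card_inter_le h (hB i) S
    _ = a * r S := by simp

end rank

/-- **Rounding for a laminar family.** -/
theorem laminar_round {V E : Type*} [Fintype V] [DecidableEq V] [DecidableEq E]
    {F : Finset (Finset V)} (hne : ∀ W ∈ F, W.Nonempty)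
    (hlam : ∀ Z ∈ F, ∀ Z' ∈ F, Z ⊆ Z' ∨ Z' ⊆ Z ∨ Disjoint Z Z')
    (hs : ∀ x, {x} ∈ F) (htop : univ ∈ F) (p : E → V) {r : Finset E → ℕ} (hr : Rk r) (ρ : ℕ)
    (a : ℕ) (ha : 0 < a) (B : Fin a → Finset E)
    (hB : ∀ i, (B i).card = ρ ∧ r (B i) = ρ) (hd : ∀ i j, i ≠ j → Disjoint (B i) (B j))
    (hρ : r (univ.biUnion B) ≤ ρ) :
    ∃ A ⊆ univ.biUnion B, A.card = ρ ∧ r A = ρ ∧ ∀ W ∈ F,
      a * (A.filter fun e => p e ∈ W).card ≤
        ((univ.biUnion B).filter fun e => p e ∈ W).card + (a - 1) := by
  classical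
  obtain ⟨par, hpar⟩ := one_exists_par hne hlam htop
  set BB := univ.biUnion B with hBB
  have hBc : BB.card = a * ρ := by
    rw [hBB, card_biUnion (fun i _ j _ hij => hd i j hij)]
    simp [(hB _).1]
  let U : Finset V → ℕ := fun W => ((BB.filter fun e => p e ∈ W).card + (a - 1)) / a
  have hU : ∀ W, U W = ((BB.filter fun e => p e ∈ W).card + (a - 1)) / a := fun W => rfl
  have hU1 : ∀ W, (BB.filter fun e => p e ∈ W).card ≤ a * U W := by
    intro W
    have h1 := Nat.div_add_mod ((BB.filter fun e => p e ∈ W).card + (a - 1)) a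
    have h2 := Nat.mod_lt ((BB.filter fun e => p e ∈ W).card + (a - 1)) ha
    rw [← hU] at h1
    omega
  have hU2 : ∀ W, a * U W ≤ (BB.filter fun e => p e ∈ W).card + (a - 1) :=
    fun W => Nat.mul_div_le _ _
  have hUu : U univ = ρ := by
    have h1 : BB.filter (fun e => p e ∈ (univ : Finset V)) = BB :=
      filter_true_of_mem fun e _ => mem_univ _
    rw [hU, h1, hBc, Nat.add_comm, Nat.add_mul_div_left _ _ ha, Nat.div_eq_of_lt (by omega)]
    omega
  -- arcs, indices
  let AR : Finset (Σ _ : Finset V, ℕ) := (F.erase univ).sigma fun W => range (U W)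
  let T : Finset (Σ _ : Finset V, ℕ) := F.sigma fun W => range (U W)
  have hARm : ∀ w, w ∈ AR ↔ (w.1 ≠ univ ∧ w.1 ∈ F) ∧ w.2 < U w.1 := by
    intro w
    simp only [AR, mem_sigma, mem_erase, mem_range]
  have hTm : ∀ w, w ∈ T ↔ w.1 ∈ F ∧ w.2 < U w.1 := by
    intro w
    simp only [T, mem_sigma, mem_range]
  have hTc : T.card = ρ + AR.card := by
    simp only [T, AR, card_sigma, card_range]
    rw [← hUu, add_sum_erase F U htop]
  let cls : E ⊕ ((Σ _ : Finset V, ℕ) × Bool) → Finset V := fun x =>
    match x with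
    | .inl e => {p e}
    | .inr (w, true) => par w.1
    | .inr (w, false) => w.1
  have hc1 : ∀ e, cls (.inl e) = {p e} := fun e => rfl
  have hc2 : ∀ w, cls (.inr (w, true)) = par w.1 := fun w => rfl
  have hc3 : ∀ w, cls (.inr (w, false)) = w.1 := fun w => rfl
  let GR : Finset (E ⊕ ((Σ _ : Finset V, ℕ) × Bool)) := BB.disjSum (AR ×ˢ univ)
  have hGR : ∀ x, x ∈ GR ↔ (∃ e ∈ BB, x = .inl e) ∨ ∃ w ∈ AR, ∃ b, x = .inr (w, b) := by
    intro x
    rcases x with e | ⟨w, b⟩
    · simp [GR]
    · simp [GR]
  have hrk := oneR_rk (T := Σ _ : Finset V, ℕ) hr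
  -- Rado
  obtain ⟨y, g, hgi, hgA, hyc, hyr⟩ := rado_set hrk
    (fun i : {x // x ∈ T} => GR.filter fun x => cls x = i.1.1) (ρ + AR.card) (by
    intro J
    set YY := J.image (fun i : {x // x ∈ T} => i.1.1) with hYY
    have h1 : (T.filter fun x => x.1 ∉ YY).card ≤ (univ \ J).card := by
      rw [← card_image_of_injective (univ \ J) Subtype.val_injective]
      apply card_le_card
      intro x hx
      rw [mem_filter] at hx
      rw [mem_image]
      refine ⟨⟨x, hx.1⟩, ?_, rfl⟩
      rw [mem_sdiff]
      refine ⟨mem_univ _, fun hJ => hx.2 ?_⟩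
      rw [hYY, mem_image]
      exact ⟨_, hJ, rfl⟩
    have h2 := card_filter_add_card_filter_not (s := T) (fun x => x.1 ∈ YY)
    set SS := J.biUnion fun i : {x // x ∈ T} => GR.filter fun x => cls x = i.1.1 with hSS
    have hmem : ∀ x ∈ GR, cls x ∈ YY → x ∈ SS := by
      intro x hx hc
      rw [hYY, mem_image] at hc
      obtain ⟨i, hi, hi2⟩ := hc
      rw [hSS, mem_biUnion]
      exact ⟨i, hi, mem_filter.2 ⟨hx, hi2.symm⟩⟩
    set SE := BB.filter fun e => {p e} ∈ YY with hSE
    have h3 : r SE ≤ r SS.toLeft := by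
      apply hr.mono
      intro e he
      rw [hSE, mem_filter] at he
      rw [mem_toLeft]
      exact hmem _ ((hGR _).2 (Or.inl ⟨e, he.1, rfl⟩)) he.2
    have h4 : (AR.filter fun w => w.1 ∈ YY ∨ par w.1 ∈ YY).card ≤
        (SS.toRight.image Prod.fst).card := by
      apply card_le_card
      intro w hw
      rw [mem_filter] at hw
      rw [mem_image]
      rcases hw.2 with h5 | h5
      · refine ⟨(w, false), ?_, rfl⟩
        rw [mem_toRight]
        exact hmem _ ((hGR _).2 (Or.inr ⟨w, hw.1, false, rfl⟩)) h5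
      · refine ⟨(w, true), ?_, rfl⟩
        rw [mem_toRight]
        exact hmem _ ((hGR _).2 (Or.inr ⟨w, hw.1, true, rfl⟩)) h5
    have h5 : (T.filter fun x => x.1 ∈ YY).card ≤
        r SE + (AR.filter fun w => w.1 ∈ YY ∨ par w.1 ∈ YY).card := by
      by_cases hu : univ ∈ YY
      · have h6 : (T.filter fun x => x.1 ∈ YY).card ≤ ρ + (AR.filter fun w => w.1 ∈ YY).card := by
          have h7 : (T.filter fun x => x.1 ∈ YY) ⊆
              (({univ} : Finset (Finset V)).sigma fun W => range (U W)) ∪
                (AR.filter fun w => w.1 ∈ YY) := by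
            intro x hx
            rw [mem_filter, hTm] at hx
            rw [mem_union, mem_filter, hARm, mem_sigma, mem_singleton, mem_range]
            by_cases hxu : x.1 = univ
            · exact Or.inl ⟨hxu, hx.1.2⟩
            · exact Or.inr ⟨⟨⟨hxu, hx.1.1⟩, hx.1.2⟩, hx.2⟩
          refine (card_le_card h7).trans ((card_union_le _ _).trans ?_)
          rw [card_sigma, sum_singleton, card_range, hUu]
        have h7 : (AR.filter fun w => w.1 ∈ YY).card +
            (AR.filter fun w => w.1 ∉ YY ∧ par w.1 ∈ YY).card ≤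
            (AR.filter fun w => w.1 ∈ YY ∨ par w.1 ∈ YY).card := by
          rw [← card_union_of_disjoint]
          · apply card_le_card
            intro w hw
            rw [mem_union, mem_filter, mem_filter] at hw
            rw [mem_filter]
            rcases hw with hw | hw
            · exact ⟨hw.1, Or.inl hw.2⟩
            · exact ⟨hw.1, Or.inr hw.2.2⟩
          · rw [disjoint_left]
            intro w hw hw'
            rw [mem_filter] at hw hw'
            exact hw'.2.1 hw.2
        set G := (F.erase univ).filter fun W => W ∉ YY ∧ par W ∈ YY with hG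
        have h8 : (AR.filter fun w => w.1 ∉ YY ∧ par w.1 ∈ YY).card = ∑ W ∈ G, U W := by
          have h9 : (AR.filter fun w => w.1 ∉ YY ∧ par w.1 ∈ YY) =
              G.sigma fun W => range (U W) := by
            ext w
            simp only [mem_filter, hARm, hG, mem_sigma, mem_erase, mem_range]
            tauto
          rw [h9, card_sigma]
          simp only [card_range]
        have h9 : BB ⊆ SE ∪ G.biUnion fun W => BB.filter fun e => p e ∈ W := by
          intro e he
          rw [mem_union]
          by_cases hpe : {p e} ∈ YY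
          · exact Or.inl (mem_filter.2 ⟨he, hpe⟩)
          · right
            have h10 : (F.filter fun Z => p e ∈ Z ∧ Z ∉ YY).Nonempty :=
              ⟨{p e}, mem_filter.2 ⟨hs _, mem_singleton_self _, hpe⟩⟩
            obtain ⟨W, hW, hmax⟩ := exists_max_image _ card h10
            rw [mem_filter] at hW
            have hWu : W ≠ univ := by
              rintro rfl
              exact hW.2.2 hu
            obtain ⟨h11, h12, -⟩ := hpar W hW.1 hWu
            rw [mem_biUnion]
            refine ⟨W, ?_, mem_filter.2 ⟨he, hW.2.1⟩⟩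
            rw [hG, mem_filter, mem_erase]
            refine ⟨⟨hWu, hW.1⟩, hW.2.2, ?_⟩
            by_contra hcon
            have h13 := hmax (par W) (mem_filter.2 ⟨h11, h12.1 hW.2.1, hcon⟩)
            have h14 := card_lt_card h12
            omega
        have h10 : BB.card ≤ SE.card + ∑ W ∈ G, (BB.filter fun e => p e ∈ W).card :=
          (card_le_card h9).trans ((card_union_le _ _).trans
            (Nat.add_le_add_left card_biUnion_le _))
        have h11 : SE.card ≤ a * r SE :=
          one_card_le hr (B := B) (fun i => (hB i).2.trans (hB i).1.symm) (filter_subset _ _)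
        have h12 : ∑ W ∈ G, (BB.filter fun e => p e ∈ W).card ≤ a * ∑ W ∈ G, U W := by
          rw [mul_sum]
          exact sum_le_sum fun W _ => hU1 W
        have h13 : a * ρ ≤ a * (r SE + ∑ W ∈ G, U W) := by
          rw [mul_add]
          omega
        have h14 := Nat.le_of_mul_le_mul_left h13 ha
        omega
      · have h6 : (T.filter fun x => x.1 ∈ YY).card ≤
            (AR.filter fun w => w.1 ∈ YY ∨ par w.1 ∈ YY).card := by
          apply card_le_card
          intro x hx
          rw [mem_filter, hTm] at hx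
          rw [mem_filter, hARm]
          refine ⟨⟨⟨?_, hx.1.1⟩, hx.1.2⟩, Or.inl hx.2⟩
          intro hxu
          exact hu (hxu ▸ hx.2)
        omega
    have h6 : oneR (T := Σ _ : Finset V, ℕ) r SS = r SS.toLeft + (SS.toRight.image Prod.fst).card := rfl
    rw [h6]
    omega)
  -- what Rado's set looks like
  have hyG : ∀ x ∈ y, x ∈ GR := fun x hx => (mem_filter.1 (hgA ⟨x, hx⟩)).1
  have hA0 : y.toLeft ⊆ BB := by
    intro e he
    rw [mem_toLeft] at he
    rcases (hGR _).1 (hyG _ he) with ⟨e', h1, h2⟩ | ⟨w, -, b, h2⟩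
    · rw [Sum.inl.inj h2]
      exact h1
    · exact absurd h2 (by simp)
  have hAr : ∀ x ∈ y.toRight, x.1 ∈ AR := by
    intro x hx
    rw [mem_toRight] at hx
    rcases (hGR _).1 (hyG _ hx) with ⟨e', -, h2⟩ | ⟨w, h1, b, h2⟩
    · exact absurd h2 (by simp)
    · rw [Sum.inr.inj h2]
      exact h1
  have hsub : y.toRight.image Prod.fst ⊆ AR := by
    intro w hw
    obtain ⟨x, hx, rfl⟩ := mem_image.1 hw
    exact hAr x hx
  have e1 : r y.toLeft + (y.toRight.image Prod.fst).card = ρ + AR.card := hyr
  have e2 : y.toLeft.card + y.toRight.card = ρ + AR.card := by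
    rw [card_toLeft_add_card_toRight]
    exact hyc
  have e3 := card_le_card hsub
  have e4 := (hr.mono _ _ hA0).trans hρ
  have e5 := hr.le_card y.toLeft
  have e6 : (y.toRight.image Prod.fst).card ≤ y.toRight.card := card_image_le
  have hrA : r y.toLeft = ρ := by omega
  have hcA : y.toLeft.card = ρ := by omega
  have himg : y.toRight.image Prod.fst = AR := eq_of_subset_of_card_le hsub (by omega)
  have hinj : Set.InjOn Prod.fst (y.toRight : Set ((Σ _ : Finset V, ℕ) × Bool)) := by
    rw [← card_image_iff]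
    omega
  -- flow
  let f : Finset V → ℕ := fun W => (y.toRight.filter fun x => x.1.1 = W ∧ x.2 = true).card
  let τ : Finset V → ℕ := fun W => (y.toRight.filter fun x => x.1.1 = W ∧ x.2 = false).card
  have hfτ : ∀ W ∈ F, W ≠ univ → f W + τ W = U W := by
    intro W hW hWu
    have h1 : f W + τ W = (y.toRight.filter fun x => x.1.1 = W).card := by
      have h5 : (y.toRight.filter fun x => x.1.1 = W ∧ x.2 = false) =
          (y.toRight.filter fun x => x.1.1 = W ∧ ¬ x.2 = true) := by
        apply filter_congr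
        intro x _
        simp
      rw [← card_filter_add_card_filter_not (s := y.toRight.filter fun x => x.1.1 = W)
        (fun x => x.2 = true), filter_filter, filter_filter, ← h5]
    have h2 : (y.toRight.filter fun x => x.1.1 = W).image Prod.fst =
        (AR.filter fun w => w.1 = W) := by
      rw [← himg, filter_image]
    have h3 : ((y.toRight.filter fun x => x.1.1 = W).image Prod.fst).card =
        (y.toRight.filter fun x => x.1.1 = W).card :=
      card_image_of_injOn (hinj.mono (by
        intro x hx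
        exact mem_coe.2 (mem_of_mem_filter x (mem_coe.1 hx))))
    have h4 : (AR.filter fun w => w.1 = W) =
        (({W} : Finset (Finset V)).sigma fun W => range (U W)) := by
      ext w
      simp only [mem_filter, hARm, mem_sigma, mem_singleton, mem_range]
      constructor
      · rintro ⟨⟨-, h5⟩, h6⟩
        exact ⟨h6, h5⟩
      · rintro ⟨h5, h6⟩
        exact ⟨⟨⟨h5 ▸ hWu, h5 ▸ hW⟩, h6⟩, h5⟩
    rw [h1, ← h3, h2, h4, card_sigma, sum_singleton, card_range]
  have hcl : ∀ Y ∈ F, (y.filter fun x => cls x = Y).card ≤ U Y := by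
    intro Y hY
    have h1 : (T.filter fun i => i.1 = Y).card ≤ U Y := by
      have h2 : (T.filter fun i => i.1 = Y) ⊆
          (({Y} : Finset (Finset V)).sigma fun W => range (U W)) := by
        intro w hw
        rw [mem_filter, hTm] at hw
        rw [mem_sigma, mem_singleton, mem_range]
        exact ⟨hw.2, hw.1.2⟩
      refine (card_le_card h2).trans ?_
      rw [card_sigma, sum_singleton, card_range]
    refine le_trans ?_ h1
    apply card_le_card_of_injOn (fun x => if h : x ∈ y then (g ⟨x, h⟩).1 else ⟨Y, 0⟩)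
    · intro x hx
      rw [mem_coe, mem_filter] at hx
      rw [mem_coe, mem_filter]
      simp only [dif_pos hx.1]
      have h2 := (mem_filter.1 (hgA ⟨x, hx.1⟩)).2
      exact ⟨(g ⟨x, hx.1⟩).2, by rw [← h2]; exact hx.2⟩
    · intro x hx x' hx' hxx
      rw [mem_coe, mem_filter] at hx hx'
      simp only [dif_pos hx.1, dif_pos hx'.1] at hxx
      exact congrArg Subtype.val (hgi (Subtype.ext hxx))
  have hcl2 : ∀ Y ∈ F, (y.toLeft.filter fun e => {p e} = Y).card +
      (∑ W ∈ (F.erase univ).filter (fun W => par W = Y), f W) + τ Y ≤ U Y := by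
    intro Y hY
    refine le_trans ?_ (hcl Y hY)
    rw [← card_toLeft_add_card_toRight (u := y.filter fun x => cls x = Y)]
    have h1 : (y.filter fun x => cls x = Y).toLeft = y.toLeft.filter fun e => {p e} = Y := by
      ext e
      simp only [mem_toLeft, mem_filter, hc1]
    have h2 : (∑ W ∈ (F.erase univ).filter (fun W => par W = Y), f W) =
        (y.toRight.filter fun x => par x.1.1 = Y ∧ x.2 = true).card := by
      have h3 : ∀ x ∈ (y.toRight.filter fun x => par x.1.1 = Y ∧ x.2 = true),
          x.1.1 ∈ (F.erase univ).filter (fun W => par W = Y) := by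
        intro x hx
        rw [mem_filter] at hx
        have h4 := (hARm _).1 (hAr x hx.1)
        rw [mem_filter, mem_erase]
        exact ⟨h4.1, hx.2.1⟩
      rw [card_eq_sum_card_fiberwise h3]
      apply sum_congr rfl
      intro W hW
      rw [mem_filter] at hW
      simp only [f]
      rw [filter_filter]
      congr 1
      ext x
      simp only [mem_filter]
      constructor
      · rintro ⟨h5, h6, h7⟩
        exact ⟨h5, ⟨h6 ▸ hW.2, h7⟩, h6⟩
      · rintro ⟨h5, ⟨-, h7⟩, h6⟩
        exact ⟨h5, h6, h7⟩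
    have h3 : (y.toRight.filter fun x => par x.1.1 = Y ∧ x.2 = true).card + τ Y ≤
        ((y.filter fun x => cls x = Y).toRight).card := by
      simp only [τ]
      rw [← card_union_of_disjoint]
      · apply card_le_card
        intro x hx
        rw [mem_union, mem_filter, mem_filter, mem_toRight] at hx
        rw [mem_toRight, mem_filter]
        rcases x with ⟨w, b⟩
        rcases hx with ⟨h4, h5, h6⟩ | ⟨h4, h5, h6⟩
        · simp only at h5 h6
          subst h6
          exact ⟨h4, h5⟩
        · simp only at h5 h6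
          subst h6
          exact ⟨h4, h5⟩
      · rw [disjoint_left]
        intro x hx hx'
        rw [mem_filter] at hx hx'
        rw [hx.2.2] at hx'
        exact absurd hx'.2.2 (by simp)
    rw [h1, h2]
    omega
  -- the flow carries the edges
  have hcov : ∀ Y ∈ F, (y.toLeft.filter fun e => p e ∈ Y).card ≤
      (y.toLeft.filter fun e => {p e} = Y).card +
        ∑ W ∈ (F.erase univ).filter (fun W => par W = Y),
          (y.toLeft.filter fun e => p e ∈ W).card := by
    intro Y hY
    have h1 : (y.toLeft.filter fun e => p e ∈ Y) ⊆ (y.toLeft.filter fun e => {p e} = Y) ∪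
        ((F.erase univ).filter (fun W => par W = Y)).biUnion
          (fun W => y.toLeft.filter fun e => p e ∈ W) := by
      intro e he
      rw [mem_filter] at he
      rw [mem_union]
      by_cases hpe : {p e} = Y
      · exact Or.inl (mem_filter.2 ⟨he.1, hpe⟩)
      · right
        obtain ⟨W, h2, h3, h4, h5, -⟩ := one_exists_child hs hpar hY he.2 hpe
        rw [mem_biUnion]
        exact ⟨W, mem_filter.2 ⟨mem_erase.2 ⟨h3, h2⟩, h4⟩, mem_filter.2 ⟨he.1, h5⟩⟩
    exact (card_le_card h1).trans ((card_union_le _ _).trans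
      (Nat.add_le_add_left card_biUnion_le _))
  have hflow : ∀ n, ∀ Y ∈ F, Y ≠ univ → Y.card = n →
      (y.toLeft.filter fun e => p e ∈ Y).card ≤ f Y := by
    intro n
    induction n using Nat.strong_induction_on with
    | _ n ih =>
      intro Y hY hYu hn
      have h1 := hcov Y hY
      have h2 := hcl2 Y hY
      have h3 := hfτ Y hY hYu
      have h4 : ∑ W ∈ (F.erase univ).filter (fun W => par W = Y),
          (y.toLeft.filter fun e => p e ∈ W).card ≤
          ∑ W ∈ (F.erase univ).filter (fun W => par W = Y), f W := by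
        apply sum_le_sum
        intro W hW
        rw [mem_filter, mem_erase] at hW
        have h5 := (hpar W hW.1.2 hW.1.1).2.1
        rw [hW.2] at h5
        exact ih W.card (hn ▸ card_lt_card h5) W hW.1.2 hW.1.1 rfl
      omega
  refine ⟨y.toLeft, hA0, hcA, hrA, ?_⟩
  intro W hW
  have h1 : (y.toLeft.filter fun e => p e ∈ W).card ≤ U W := by
    by_cases hWu : W = univ
    · subst hWu
      rw [hUu, ← hcA]
      exact card_le_card (filter_subset _ _)
    · have h2 := hflow _ W hW hWu rfl
      have h3 := hfτ W hW hWu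
      omega
  exact (Nat.mul_le_mul_left a h1).trans (hU2 W)

/-- **One-sided theorem.** `n W` = number of edges of a base inside `W`. -/
theorem round_one_sided {V E : Type*} [Fintype V] [DecidableEq V] [DecidableEq E]
    {F : Finset (Finset V)} (hne : ∀ W ∈ F, W.Nonempty)
    (hlam : ∀ Z ∈ F, ∀ Z' ∈ F, Z ⊆ Z' ∨ Z' ⊆ Z ∨ Disjoint Z Z')
    (hs : ∀ x, {x} ∈ F) (htop : univ ∈ F) (p q : E → V) {r : Finset E → ℕ} (hr : Rk r) (ρ : ℕ)
    (n : Finset V → ℕ) (a : ℕ) (ha : 0 < a) (B : Fin a → Finset E)
    (hB : ∀ i, (B i).card = ρ ∧ r (B i) = ρ) (hd : ∀ i j, i ≠ j → Disjoint (B i) (B j))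
    (hρ : r (univ.biUnion B) ≤ ρ)
    (hbase : ∀ A ⊆ univ.biUnion B, A.card = ρ → r A = ρ → ∀ W ∈ F,
      (A.filter fun e => p e ∈ W ∧ q e ∈ W).card = n W) :
    ∃ A ⊆ univ.biUnion B, A.card = ρ ∧ r A = ρ ∧ ∀ W ∈ F,
      a * (A.filter fun e => p e ∈ W ∧ q e ∉ W).card ≤
        ((univ.biUnion B).filter fun e => p e ∈ W ∧ q e ∉ W).card + (a - 1) := by
  classical
  obtain ⟨A, hA, hc, hrA, hW⟩ := laminar_round hne hlam hs htop p hr ρ a ha B hB hd hρ
  refine ⟨A, hA, hc, hrA, ?_⟩
  intro W hWF
  have h0 := hW W hWF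
  have split : ∀ S : Finset E, (S.filter fun e => p e ∈ W).card =
      (S.filter fun e => p e ∈ W ∧ q e ∈ W).card + (S.filter fun e => p e ∈ W ∧ q e ∉ W).card := by
    intro S
    rw [← card_filter_add_card_filter_not (s := S.filter fun e => p e ∈ W) (fun e => q e ∈ W),
      filter_filter, filter_filter]
  have h1 := hbase A hA hc hrA W hWF
  have h2 : ((univ.biUnion B).filter fun e => p e ∈ W ∧ q e ∈ W).card = a * n W := by
    rw [filter_biUnion, card_biUnion]
    · simp only [hbase _ (subset_biUnion_of_mem B (mem_univ _)) (hB _).1 (hB _).2 W hWF]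
      simp
    · intro i _ j _ hij
      exact disjoint_filter_filter (hd i j hij)
  rw [split A, split (univ.biUnion B), h1, h2, mul_add] at h0
  omega

end Pool.Agent.Lib.MP_21a058_co.Thin
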