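import Pool.Agent.Lib.MP_21a058_co.Thin.Base
import Pool.Agent.Lib.MP_21a058_co.Thin.Round

/-! Thin trees: the one-sided theorem (MP_21a058_co, file F). -/

set_option linter.unusedSectionVars false
set_option linter.unusedVariables false

namespace Pool.Agent.Lib.MP_21a058_co.Thin

open Finset
open scoped Classical

variable {V E : Type} [Fintype V]

theorem RankFn.toRk {α : Type} (M : RankFn α) : MP21a058.Rk M.r where
  emp := M.emp
  mono := M.mono
  one := fun s e => M.unit e s
  sub := M.sub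

/-- the edges inside a member `W` are those of the regions inside `W` -/
theorem Fam.card_inside (L : Fam V) (v w : E → V) (A : Finset E) {W : Finset V}
    (hW : W ∈ L.F) : (A.filter fun e => v e ∈ W ∧ w e ∈ W).card =
      ∑ Y ∈ L.F.filter (fun Y => Y ⊆ W), (L.reg v w A Y).card := by
  rw [← card_biUnion]
  · congr 1
    ext e
    simp only [mem_filter, mem_biUnion]
    constructor
    · rintro ⟨he, h1, h2⟩
      obtain ⟨Y, hY, heY⟩ := L.reg_cover v w A he
      refine ⟨Y, ⟨hY, ?_⟩, heY⟩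
      simp only [Fam.reg, mem_filter] at heY
      rcases L.lam Y hY W hW with h3 | h3 | h3
      · exact h3
      · by_cases h4 : W = Y
        · exact h4.symm.subset
        · exact absurd ⟨h1, h2⟩ (heY.2.2.2 W hW (h3.ssubset_of_ne h4))
      · exact absurd h1 (disjoint_left.1 h3 heY.2.1)
    · rintro ⟨Y, ⟨-, hYW⟩, heY⟩
      simp only [Fam.reg, mem_filter] at heY
      exact ⟨heY.1, hYW heY.2.1, hYW heY.2.2.1⟩
  · intro Y hY Y' hY' hne
    rw [mem_coe, mem_filter] at hY hY'
    exact L.reg_disj v w A hY.1 hY'.1 hne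

/-- One-sided theorem. -/
theorem Fam.one_sided (L : Fam V) (v w : E → V) {a : ℕ} (ha : 0 < a)
    (B : Fin a → Finset E) (hd : ∀ i j, i ≠ j → Disjoint (B i) (B j)) (n : ℕ)
    (hB : ∀ i, L.R v w (B i) = n) (hc : ∀ i, (B i).card = n)
    (hU : L.R v w (univ.biUnion B) = n) :
    ∃ A ⊆ univ.biUnion B, L.R v w A = n ∧ A.card = n ∧ ∀ W ∈ L.F, W ≠ univ →
      a * (D v w A W).card ≤ (D v w (univ.biUnion B) W).card + (a - 1) := by
  obtain ⟨A, hA, hcA, hrA, hW⟩ := round_one_sided (F := L.F) L.ne L.lam L.sing L.top v w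
    (r := L.R v w) (L.M v w).toRk n
    (fun W => ∑ Y ∈ L.F.filter (fun Y => Y ⊆ W), L.rk v w Y (univ.biUnion B)) a ha B
    (fun i => ⟨hc i, hB i⟩) hd hU.le (by
    intro A hA hcA hrA W hWF
    rw [L.card_inside v w A hWF]
    apply sum_congr rfl
    intro Y hY
    rw [mem_filter] at hY
    rw [L.base_card v w (hcA.trans hrA.symm) hY.1, L.base_rk v w hA (hrA.trans hU.symm) hY.1])
  exact ⟨A, hA, hrA, hcA, fun W hWF _ => hW W hWF⟩

end Pool.Agent.Lib.MP_21a058_co.Thin
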