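import Pool.Agent.Lib.MP_21a058_co.Thin.Defs

/-! Thin trees, (C): the ranks of the regions and the total rank. -/

set_option linter.unusedSectionVars false
set_option linter.unusedVariables false

namespace Pool.Agent.Lib.MP_21a058_co.Thin

open Finset
open scoped Classical

variable {V E : Type} [Fintype V]

theorem Fam.K_anti (L : Fam V) (v w : E → V) (Y : Finset V) {J J' : Finset E} (h : J ⊆ J') :
    L.K v w Y J' ≤ L.K v w Y J := by
  intro g hg
  exact ⟨hg.1, hg.2.1, fun e he => hg.2.2 e (h he)⟩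

theorem Fam.K_fin (L : Fam V) (v w : E → V) (Y : Finset V) {J J' : Finset E} (h : J ⊆ J') :
    Module.finrank ℚ (L.K v w Y J') ≤ Module.finrank ℚ (L.K v w Y J) :=
  Submodule.finrank_mono (L.K_anti v w Y h)

theorem Fam.K_fin0 (L : Fam V) (v w : E → V) (Y : Finset V) (J : Finset E) :
    Module.finrank ℚ (L.K v w Y J) ≤ Module.finrank ℚ (L.K v w Y ∅) :=
  L.K_fin v w Y (empty_subset J)

theorem Fam.rk_emp (L : Fam V) (v w : E → V) (Y : Finset V) : L.rk v w Y ∅ = 0 := by
  unfold Fam.rk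
  exact Nat.sub_self _

theorem Fam.rk_mono (L : Fam V) (v w : E → V) (Y : Finset V) {J J' : Finset E}
    (h : J ⊆ J') : L.rk v w Y J ≤ L.rk v w Y J' := by
  unfold Fam.rk
  exact Nat.sub_le_sub_left (L.K_fin v w Y h) _

/-- one more equation lowers the dimension by at most one -/
theorem Fam.K_insert_fin (L : Fam V) (v w : E → V) (Y : Finset V) (e : E) (J : Finset E) :
    Module.finrank ℚ (L.K v w Y J) ≤ Module.finrank ℚ (L.K v w Y (insert e J)) + 1 := by
  let φ : (V → ℚ) →ₗ[ℚ] ℚ :=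
    (LinearMap.proj (R := ℚ) (φ := fun _ : V => ℚ) (v e))
      - (LinearMap.proj (R := ℚ) (φ := fun _ : V => ℚ) (w e))
  have h1 : L.K v w Y J ⊓ LinearMap.ker φ ≤ L.K v w Y (insert e J) := by
    rintro f ⟨hf, hf2⟩
    refine ⟨hf.1, hf.2.1, fun e' he' h h' => ?_⟩
    rcases mem_insert.1 he' with h2 | h2
    · rw [h2]
      have h3 : φ f = 0 := hf2
      have h4 : f (v e) - f (w e) = 0 := h3
      linarith
    · exact hf.2.2 e' h2 h h'
  have h2 := Submodule.finrank_mono h1
  have h3 := Submodule.finrank_sup_add_finrank_inf_eq (L.K v w Y J) (LinearMap.ker φ)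
  have h4 : Module.finrank ℚ ↥(L.K v w Y J ⊔ LinearMap.ker φ) ≤ Module.finrank ℚ (V → ℚ) :=
    Submodule.finrank_le _
  have h5 := LinearMap.finrank_range_add_finrank_ker φ
  have h6 : Module.finrank ℚ (LinearMap.range φ) ≤ Module.finrank ℚ ℚ := Submodule.finrank_le _
  rw [Module.finrank_self] at h6
  omega

theorem Fam.rk_unit (L : Fam V) (v w : E → V) (Y : Finset V) (e : E) (J : Finset E) :
    L.rk v w Y (insert e J) ≤ L.rk v w Y J + 1 := by
  have h1 := L.K_insert_fin v w Y e J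
  unfold Fam.rk
  omega

/-- `K (J ∪ J') = K J ⊓ K J'`, `K J ⊔ K J' ≤ K (J ∩ J')`. -/
theorem Fam.rk_sub (L : Fam V) (v w : E → V) (Y : Finset V) (J J' : Finset E) :
    L.rk v w Y (J ∪ J') + L.rk v w Y (J ∩ J') ≤ L.rk v w Y J + L.rk v w Y J' := by
  have h0 : L.K v w Y (J ∪ J') = L.K v w Y J ⊓ L.K v w Y J' := by
    apply le_antisymm
    · exact le_inf (L.K_anti v w Y subset_union_left) (L.K_anti v w Y subset_union_right)
    · rintro g ⟨h1, h2⟩
      refine ⟨h1.1, h1.2.1, fun e he h h' => ?_⟩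
      rcases mem_union.1 he with h3 | h3
      · exact h1.2.2 e h3 h h'
      · exact h2.2.2 e h3 h h'
  have h1 := Submodule.finrank_sup_add_finrank_inf_eq (L.K v w Y J) (L.K v w Y J')
  have h2 : L.K v w Y J ⊔ L.K v w Y J' ≤ L.K v w Y (J ∩ J') :=
    sup_le (L.K_anti v w Y inter_subset_left) (L.K_anti v w Y inter_subset_right)
  have h3 := Submodule.finrank_mono h2
  have h4 := L.K_fin0 v w Y J
  have h5 := L.K_fin0 v w Y J'
  have h6 := L.K_fin0 v w Y (J ∩ J')
  have h7 := L.K_fin0 v w Y (J ∪ J')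
  rw [← h0] at h1
  unfold Fam.rk
  omega

/-- outside the region of `Y` -/
theorem Fam.mem_reg_single (L : Fam V) (v w : E → V) {Y : Finset V} {e : E} :
    e ∈ L.reg v w {e} Y ↔
      v e ∈ Y ∧ w e ∈ Y ∧ ∀ Z ∈ L.F, Z ⊂ Y → ¬ (v e ∈ Z ∧ w e ∈ Z) := by
  unfold Fam.reg
  rw [mem_filter]
  simp only [mem_singleton, true_and]

/-- an edge outside the region of `Y` does not change the rank at `Y` -/
theorem Fam.rk_insert (L : Fam V) (v w : E → V) {Y : Finset V} (e : E) (J : Finset E)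
    (h : e ∉ L.reg v w {e} Y) : L.rk v w Y (insert e J) = L.rk v w Y J := by
  have h1 : L.K v w Y (insert e J) = L.K v w Y J := by
    apply le_antisymm (L.K_anti v w Y (subset_insert e J))
    intro g hg
    refine ⟨hg.1, hg.2.1, fun e' he' h2 h3 => ?_⟩
    rcases mem_insert.1 he' with h4 | h4
    · rw [h4] at h2 h3 ⊢
      rw [L.mem_reg_single] at h
      push Not at h
      obtain ⟨Z, hZ, hZY, h5, h6⟩ := h h2 h3
      exact hg.2.1 Z hZ hZY _ h5 _ h6
    · exact hg.2.2 e' h4 h2 h3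
  unfold Fam.rk
  rw [h1]

theorem Fam.K_reg (L : Fam V) (v w : E → V) (Y : Finset V) (J : Finset E) :
    L.K v w Y (L.reg v w J Y) = L.K v w Y J := by
  have h0 : L.reg v w J Y ⊆ J := filter_subset _ _
  refine le_antisymm ?_ (L.K_anti v w Y h0)
  intro g hg
  refine ⟨hg.1, hg.2.1, fun e he h2 h3 => ?_⟩
  by_cases h4 : ∀ Z ∈ L.F, Z ⊂ Y → ¬ (v e ∈ Z ∧ w e ∈ Z)
  · exact hg.2.2 e (mem_filter.2 ⟨he, h2, h3, h4⟩) h2 h3
  · push Not at h4
    obtain ⟨Z, hZ, hZY, h5, h6⟩ := h4
    exact hg.2.1 Z hZ hZY _ h5 _ h6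

theorem Fam.rk_reg (L : Fam V) (v w : E → V) (Y : Finset V) (J : Finset E) :
    L.rk v w Y (L.reg v w J Y) = L.rk v w Y J := by
  unfold Fam.rk
  rw [L.K_reg]

theorem Fam.rk_le_card0 (L : Fam V) (v w : E → V) (Y : Finset V) (J : Finset E) :
    L.rk v w Y J ≤ J.card := by
  induction J using Finset.induction_on with
  | empty => rw [L.rk_emp]; exact Nat.zero_le _
  | insert e J he ih =>
    rw [card_insert_of_notMem he]
    exact (L.rk_unit v w Y e J).trans (by omega)

theorem Fam.rk_le_card (L : Fam V) (v w : E → V) (Y : Finset V) (J : Finset E) :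
    L.rk v w Y J ≤ (L.reg v w J Y).card := by
  rw [← L.rk_reg]
  exact L.rk_le_card0 v w Y _

theorem Fam.K_eq (L : Fam V) (v w : E → V) (Y : Finset V) {J J' : Finset E} (h : J ⊆ J')
    (hr : L.rk v w Y J = L.rk v w Y J') : L.K v w Y J = L.K v w Y J' := by
  have h1 := L.K_fin0 v w Y J
  have h2 := L.K_fin0 v w Y J'
  have h3 : Module.finrank ℚ (L.K v w Y J) ≤ Module.finrank ℚ (L.K v w Y J') := by
    unfold Fam.rk at hr
    omega
  exact (Submodule.eq_of_le_of_finrank_le (L.K_anti v w Y h) h3).symm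

/-- an edge lies in at most one region -/
theorem Fam.reg_unique (L : Fam V) (v w : E → V) {e : E} {Y Y' : Finset V} (hY : Y ∈ L.F)
    (hY' : Y' ∈ L.F) (h : e ∈ L.reg v w {e} Y) (h' : e ∈ L.reg v w {e} Y') : Y = Y' := by
  rw [L.mem_reg_single] at h h'
  rcases L.lam Y hY Y' hY' with h1 | h1 | h1
  · by_contra hne
    exact h'.2.2 Y hY (h1.ssubset_of_ne hne) ⟨h.1, h.2.1⟩
  · by_contra hne
    exact h.2.2 Y' hY' (h1.ssubset_of_ne (Ne.symm hne)) ⟨h'.1, h'.2.1⟩
  · exact absurd h'.1 (disjoint_left.1 h1 h.1)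

/-- the total rank is a matroid rank function -/
noncomputable def Fam.M (L : Fam V) (v w : E → V) : RankFn E where
  r := L.R v w
  emp := by
    unfold Fam.R
    exact sum_eq_zero fun Y _ => L.rk_emp v w Y
  mono := by
    intro A B h
    unfold Fam.R
    exact sum_le_sum fun Y _ => L.rk_mono v w Y h
  unit := by
    intro e A
    unfold Fam.R
    by_cases h : ∃ Y ∈ L.F, e ∈ L.reg v w {e} Y
    · obtain ⟨Y, hY, h1⟩ := h
      rw [← add_sum_erase L.F _ hY, ← add_sum_erase L.F (fun Y => L.rk v w Y A) hY]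
      have h2 := L.rk_unit v w Y e A
      have h3 : ∑ Z ∈ L.F.erase Y, L.rk v w Z (insert e A) = ∑ Z ∈ L.F.erase Y, L.rk v w Z A := by
        refine sum_congr rfl fun Z hZ => ?_
        refine L.rk_insert v w e A fun h4 => ?_
        exact (mem_erase.1 hZ).1 (L.reg_unique v w (mem_erase.1 hZ).2 hY h4 h1)
      rw [h3]
      omega
    · push Not at h
      have h3 : ∑ Z ∈ L.F, L.rk v w Z (insert e A) = ∑ Z ∈ L.F, L.rk v w Z A :=
        sum_congr rfl fun Z hZ => L.rk_insert v w e A (h Z hZ)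
      rw [h3]
      omega
  sub := by
    intro A B
    unfold Fam.R
    rw [← sum_add_distrib, ← sum_add_distrib]
    exact sum_le_sum fun Y _ => L.rk_sub v w Y A B

theorem Fam.K_symm (L : Fam V) (v w : E → V) (Y : Finset V) (J : Finset E) :
    L.K w v Y J = L.K v w Y J := by
  apply le_antisymm
  · intro g hg
    exact ⟨hg.1, hg.2.1, fun e he h h' => (hg.2.2 e he h' h).symm⟩
  · intro g hg
    exact ⟨hg.1, hg.2.1, fun e he h h' => (hg.2.2 e he h' h).symm⟩

theorem Fam.R_symm (L : Fam V) (v w : E → V) (J : Finset E) : L.R w v J = L.R v w J := by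
  unfold Fam.R Fam.rk
  exact sum_congr rfl fun Y _ => by rw [L.K_symm v w Y ∅, L.K_symm v w Y J]

end Pool.Agent.Lib.MP_21a058_co.Thin
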