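import Pool.Agent.Lib.MP_21a058_co.Thin.Fam
import Pool.Agent.Lib.MP_21a058_co.Thin.Reg

/-! Thin trees: bases of the total rank (MP_21a058_co, file D). -/

set_option linter.unusedSectionVars false
set_option linter.unusedVariables false

namespace Pool.Agent.Lib.MP_21a058_co.Thin

open Finset
open scoped Classical

variable {V E : Type} [Fintype V]

theorem Fam.base_rk (L : Fam V) (v w : E → V) {A B : Finset E} (hAB : A ⊆ B)
    (h : L.R v w A = L.R v w B) {Y : Finset V} (hY : Y ∈ L.F) :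
    L.rk v w Y A = L.rk v w Y B :=
  (Finset.sum_eq_sum_iff_of_le (fun Z _ => L.rk_mono v w Z hAB)).1 h Y hY

theorem Fam.base_card (L : Fam V) (v w : E → V) {A : Finset E} (h : A.card = L.R v w A)
    {Y : Finset V} (hY : Y ∈ L.F) : (L.reg v w A Y).card = L.rk v w Y A := by
  have h1 : ∑ Z ∈ L.F, L.rk v w Z A ≤ ∑ Z ∈ L.F, (L.reg v w A Z).card :=
    Finset.sum_le_sum fun Z _ => L.rk_le_card v w Z A
  have h2 := L.reg_sum_le v w A
  have h3 : ∑ Z ∈ L.F, L.rk v w Z A = ∑ Z ∈ L.F, (L.reg v w A Z).card := by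
    refine le_antisymm h1 ?_
    rw [h] at h2
    exact h2
  exact ((Finset.sum_eq_sum_iff_of_le (fun Z _ => L.rk_le_card v w Z A)).1 h3 Y hY).symm

/-- Take a member `Y` of smallest size split by `S`; `S` is constant on the smaller members;
the function `1_(S ∩ Y)` is in `K Y A = K Y H`. -/
theorem Fam.base_conn (L : Fam V) (v w : E → V) {A H : Finset E} (hAH : A ⊆ H)
    (h : L.R v w A = L.R v w H) (hH : ∀ Y ∈ L.F, ConnOn v w H Y) :
    ConnOn v w A univ := by
  intro S hin hout
  by_contra hcon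
  push Not at hcon
  -- a smallest member split by `S`
  have hne : (L.F.filter (fun Y => (∃ x ∈ Y, x ∈ S) ∧ ∃ x ∈ Y, x ∉ S)).Nonempty :=
    ⟨univ, mem_filter.2 ⟨L.top, hin, hout⟩⟩
  obtain ⟨Y, hY, hmin⟩ := exists_min_image _ card hne
  rw [mem_filter] at hY
  obtain ⟨hYF, hYin, hYout⟩ := hY
  -- the indicator of `S ∩ Y`
  have hg : (fun x => if x ∈ S ∧ x ∈ Y then (1 : ℚ) else 0) ∈ L.K v w Y A := by
    refine ⟨fun x hx => if_neg fun hh => hx hh.2, fun Z hZ hZY x hx y hy => ?_,
      fun e he hv hw => ?_⟩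
    · have hns : ¬ ((∃ x ∈ Z, x ∈ S) ∧ ∃ x ∈ Z, x ∉ S) := by
        intro hh
        have h1 := hmin Z (mem_filter.2 ⟨hZ, hh⟩)
        have h2 := card_lt_card hZY
        omega
      have h3 : x ∈ S ↔ y ∈ S := by
        constructor
        · intro hxS
          by_contra hyS
          exact hns ⟨⟨x, hx, hxS⟩, y, hy, hyS⟩
        · intro hyS
          by_contra hxS
          exact hns ⟨⟨y, hy, hyS⟩, x, hx, hxS⟩
      have hxY : x ∈ Y := hZY.1 hx
      have hyY : y ∈ Y := hZY.1 hy
      simp only [hxY, hyY, and_true, h3]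
    · have h1 := hcon e he (mem_univ _) (mem_univ _)
      simp only [hv, hw, and_true, h1]
  rw [L.K_eq v w Y hAH (L.base_rk v w hAH h hYF)] at hg
  obtain ⟨e, he, hev, hew, hes⟩ := hH Y hYF S hYin hYout
  have h1 := hg.2.2 e he hev hew
  simp only [hev, hew, and_true] at h1
  apply hes
  constructor
  · intro hv
    by_contra hw
    rw [if_pos hv, if_neg hw] at h1
    exact one_ne_zero h1
  · intro hw
    by_contra hv
    rw [if_neg hv, if_pos hw] at h1
    exact zero_ne_one h1

end Pool.Agent.Lib.MP_21a058_co.Thin
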