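import Pool.Agent.Lib.MP_21a058_co.Thin.Defs

/-! (B) Laminar families: parent, children, the counting identity, the regions. -/

set_option linter.unusedSectionVars false
set_option linter.unusedVariables false

namespace Pool.Agent.Lib.MP_21a058_co.Thin

open Finset
open scoped Classical

variable {V E : Type} [Fintype V]

theorem Fam.par_spec (L : Fam V) {W : Finset V} (hW : W ∈ L.F) (hne : W ≠ univ) :
    L.par W ∈ L.F ∧ W ⊂ L.par W ∧ ∀ Z ∈ L.F, W ⊂ Z → L.par W ⊆ Z := by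
  obtain ⟨Y, hY, hmin⟩ := exists_min_image (L.F.filter fun Z => W ⊂ Z) card
    ⟨univ, mem_filter.2 ⟨L.top, Finset.ssubset_iff_subset_ne.2 ⟨subset_univ W, hne⟩⟩⟩
  have hY' := mem_filter.1 hY
  have h1 : ∀ Z ∈ L.F, W ⊂ Z → Y ⊆ Z := by
    intro Z hZ hWZ
    rcases L.lam Y hY'.1 Z hZ with h | h | h
    · exact h
    · have h2 := hmin Z (mem_filter.2 ⟨hZ, hWZ⟩)
      rw [eq_of_subset_of_card_le h h2]
    · obtain ⟨x, hx⟩ := L.ne W hW
      exact absurd (hWZ.1 hx) (disjoint_left.1 h (hY'.2.1 hx))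
  have h3 : L.par W = Y := by
    refine le_antisymm ?_ ?_
    · exact inf_le hY
    · refine Finset.le_inf fun Z hZ => ?_
      have hZ' := mem_filter.1 hZ
      exact h1 Z hZ'.1 hZ'.2
  rw [h3]
  exact ⟨hY'.1, hY'.2, h1⟩

theorem Fam.ch_mem (L : Fam V) {Y W : Finset V} (hW : W ∈ L.ch Y) :
    W ∈ L.F ∧ W ≠ univ ∧ W ⊂ Y := by
  have h1 := mem_filter.1 hW
  refine ⟨h1.1, h1.2.1, ?_⟩
  have h2 := L.par_spec h1.1 h1.2.1
  rw [h1.2.2] at h2
  exact h2.2.1

theorem Fam.ch_sing (L : Fam V) (x : V) : L.ch {x} = ∅ := by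
  rw [eq_empty_iff_forall_notMem]
  intro W hW
  obtain ⟨h1, -, h2⟩ := L.ch_mem hW
  have h3 := card_lt_card h2
  have h4 := card_pos.2 (L.ne W h1)
  rw [card_singleton] at h3
  omega

/-- every smaller member lies in a child -/
theorem Fam.sub_child (L : Fam V) {Y Z : Finset V} (hY : Y ∈ L.F) (hZ : Z ∈ L.F)
    (h : Z ⊂ Y) : ∃ W ∈ L.ch Y, Z ⊆ W := by
  obtain ⟨W, hW, hmax⟩ := exists_max_image (L.F.filter fun W => Z ⊆ W ∧ W ⊂ Y) card
    ⟨Z, mem_filter.2 ⟨hZ, Subset.refl _, h⟩⟩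
  have hW' := mem_filter.1 hW
  have hWu : W ≠ univ := by
    intro hh
    have h1 := hW'.2.2
    rw [hh] at h1
    exact h1.2 (subset_univ Y)
  obtain ⟨h1, h2, h3⟩ := L.par_spec hW'.1 hWu
  refine ⟨W, mem_filter.2 ⟨hW'.1, hWu, ?_⟩, hW'.2.1⟩
  by_contra hne
  have h4 : L.par W ⊂ Y := Finset.ssubset_iff_subset_ne.2 ⟨h3 Y hY hW'.2.2, hne⟩
  have h5 := hmax (L.par W) (mem_filter.2 ⟨h1, hW'.2.1.trans h2.1, h4⟩)
  have h6 := card_lt_card h2
  omega

theorem Fam.child_exists (L : Fam V) {Y : Finset V} (hY : Y ∈ L.F) {x : V} (hx : x ∈ Y)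
    (hne : Y ≠ {x}) : ∃ W ∈ L.ch Y, x ∈ W := by
  obtain ⟨W, hW, hx'⟩ := L.sub_child hY (L.sing x) (Finset.ssubset_iff_subset_ne.2
    ⟨singleton_subset_iff.2 hx, fun hh => hne hh.symm⟩)
  exact ⟨W, hW, hx' (mem_singleton_self x)⟩

theorem Fam.child_unique (L : Fam V) {Y W W' : Finset V} {x : V} (hW : W ∈ L.ch Y)
    (hW' : W' ∈ L.ch Y) (hx : x ∈ W) (hx' : x ∈ W') : W = W' := by
  have key : ∀ {A B : Finset V}, A ∈ L.ch Y → B ∈ L.ch Y → A ⊆ B → A = B := by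
    intro A B hA hB hAB
    by_contra hne
    have h1 := mem_filter.1 hA
    obtain ⟨h2, -, h3⟩ := L.ch_mem hB
    have h4 := (L.par_spec h1.1 h1.2.1).2.2 B h2 (Finset.ssubset_iff_subset_ne.2 ⟨hAB, hne⟩)
    rw [h1.2.2] at h4
    exact h3.2 h4
  rcases L.lam W (L.ch_mem hW).1 W' (L.ch_mem hW').1 with h | h | h
  · exact key hW hW' h
  · exact (key hW' hW h).symm
  · exact absurd hx' (disjoint_left.1 h hx)

/-- two points of `Y` in different children: no smaller member contains both, and conversely -/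
theorem Fam.not_mem_iff (L : Fam V) {Y : Finset V} (hY : Y ∈ L.F) (x y : V) :
    (∀ Z ∈ L.F, Z ⊂ Y → ¬ (x ∈ Z ∧ y ∈ Z)) ↔ ∀ W ∈ L.ch Y, x ∈ W → y ∉ W := by
  constructor
  · intro h W hW hx hy
    obtain ⟨h1, -, h2⟩ := L.ch_mem hW
    exact h W h1 h2 ⟨hx, hy⟩
  · intro h Z hZ hZY hh
    obtain ⟨W, hW, h1⟩ := L.sub_child hY hZ hZY
    exact h W hW (h1 hh.1) (h1 hh.2)

/-- An edge with `v e ∈ Y` is counted on the left for the child `W ∋ v e` iff `w e ∉ W`,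
i.e. iff `w e ∉ Y` or the edge is in the region of `Y`. -/
theorem Fam.count (L : Fam V) (v w : E → V) (B : Finset E) {Y : Finset V} (hY : Y ∈ L.F)
    (hs : ∀ x, Y ≠ {x}) :
    ∑ W ∈ L.ch Y, (D v w B W).card = (D v w B Y).card + (L.reg v w B Y).card := by
  have h1 : ∑ W ∈ L.ch Y, (D v w B W).card = ((L.ch Y).biUnion fun W => D v w B W).card := by
    rw [card_biUnion]
    intro W hW W' hW' hne
    show Disjoint (D v w B W) (D v w B W')
    rw [disjoint_left]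
    intro e he he'
    exact hne (L.child_unique hW hW' (mem_filter.1 he).2.1 (mem_filter.1 he').2.1)
  have h3 : Disjoint (D v w B Y) (L.reg v w B Y) := by
    rw [disjoint_left]
    intro e he he'
    exact (mem_filter.1 he).2.2 (mem_filter.1 he').2.2.1
  rw [h1, ← card_union_of_disjoint h3]
  have h4 : (L.ch Y).biUnion (fun W => D v w B W) = D v w B Y ∪ L.reg v w B Y := by
    ext e
    rw [mem_biUnion, mem_union]
    constructor
    · rintro ⟨W, hW, he⟩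
      obtain ⟨he, hv, hw⟩ := mem_filter.1 he
      by_cases hwY : w e ∈ Y
      · right
        refine mem_filter.2 ⟨he, (L.ch_mem hW).2.2.1 hv, hwY, ?_⟩
        rw [L.not_mem_iff hY]
        intro Z hZ hvZ hwZ
        rw [L.child_unique hW hZ hv hvZ] at hw
        exact hw hwZ
      · left
        exact mem_filter.2 ⟨he, (L.ch_mem hW).2.2.1 hv, hwY⟩
    · rintro (he | he)
      · obtain ⟨he, hv, hw⟩ := mem_filter.1 he
        obtain ⟨W, hW, hvW⟩ := L.child_exists hY hv (hs _)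
        exact ⟨W, hW, mem_filter.2 ⟨he, hvW, fun hh => hw ((L.ch_mem hW).2.2.1 hh)⟩⟩
      · obtain ⟨he, hv, hw, h5⟩ := mem_filter.1 he
        obtain ⟨W, hW, hvW⟩ := L.child_exists hY hv (hs _)
        exact ⟨W, hW, mem_filter.2 ⟨he, hvW, (L.not_mem_iff hY _ _).1 h5 W hW hvW⟩⟩
  rw [h4]

theorem Fam.reg_disj (L : Fam V) (v w : E → V) (B : Finset E) {Y Y' : Finset V}
    (hY : Y ∈ L.F) (hY' : Y' ∈ L.F) (hne : Y ≠ Y') :
    Disjoint (L.reg v w B Y) (L.reg v w B Y') := by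
  rw [disjoint_left]
  intro e he he'
  obtain ⟨-, h1, h2, h3⟩ := mem_filter.1 he
  obtain ⟨-, h4, h5, h6⟩ := mem_filter.1 he'
  rcases L.lam Y hY Y' hY' with h | h | h
  · exact h6 Y hY (Finset.ssubset_iff_subset_ne.2 ⟨h, hne⟩) ⟨h1, h2⟩
  · exact h3 Y' hY' (Finset.ssubset_iff_subset_ne.2 ⟨h, hne.symm⟩) ⟨h4, h5⟩
  · exact (disjoint_left.1 h h1) h4

theorem Fam.reg_sum (L : Fam V) (v w : E → V) (B : Finset E) (S : Finset (Finset V))
    (hS : S ⊆ L.F) :
    ∑ Y ∈ S, (L.reg v w B Y).card = (S.biUnion fun Y => L.reg v w B Y).card := by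
  rw [card_biUnion]
  intro Y hY Y' hY' hne
  exact L.reg_disj v w B (hS hY) (hS hY') hne

theorem Fam.reg_sum_le (L : Fam V) (v w : E → V) (B : Finset E) :
    ∑ Y ∈ L.F, (L.reg v w B Y).card ≤ B.card := by
  rw [L.reg_sum v w B L.F (Subset.refl _)]
  refine card_le_card ?_
  intro e he
  obtain ⟨Y, -, h⟩ := mem_biUnion.1 he
  exact (mem_filter.1 h).1

/-- every edge with different ends lies in exactly one region -/
theorem Fam.reg_cover (L : Fam V) (v w : E → V) (B : Finset E) {e : E} (he : e ∈ B) :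
    ∃ Y ∈ L.F, e ∈ L.reg v w B Y := by
  obtain ⟨Y, hY, hmin⟩ := exists_min_image (L.F.filter fun Z => v e ∈ Z ∧ w e ∈ Z) card
    ⟨univ, mem_filter.2 ⟨L.top, mem_univ _, mem_univ _⟩⟩
  obtain ⟨h1, h2, h3⟩ := mem_filter.1 hY
  refine ⟨Y, h1, mem_filter.2 ⟨he, h2, h3, fun Z hZ hZY hh => ?_⟩⟩
  have h4 := hmin Z (mem_filter.2 ⟨hZ, hh⟩)
  have h5 := card_lt_card hZY
  omega

/-- every edge lies in exactly one region -/
theorem Fam.reg_sum_eq (L : Fam V) (v w : E → V) (B : Finset E) :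
    ∑ Y ∈ L.F, (L.reg v w B Y).card = B.card := by
  rw [L.reg_sum v w B L.F (Subset.refl _)]
  have h1 : (L.F.biUnion fun Y => L.reg v w B Y) = B := by
    ext e
    rw [mem_biUnion]
    constructor
    · rintro ⟨Y, -, h⟩
      exact (mem_filter.1 h).1
    · intro he
      exact L.reg_cover v w B he
  rw [h1]

end Pool.Agent.Lib.MP_21a058_co.Thin
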