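import Pool.Agent.Lib.MP_21a058_co.Thin.Defs

/-! (K) Few edges of `A` in the cut of a set which is a union of pieces. -/

set_option linter.unusedSectionVars false
set_option linter.unusedVariables false

namespace Pool.Agent.Lib.MP_21a058_co.Thin

open Finset
open scoped Classical

variable {V E : Type} [Fintype V]

/-- the edges of `B` with both ends in `X` -/
noncomputable def bndIns (v w : E → V) (B : Finset E) (X : Finset V) : Finset E :=
  B.filter (fun e => v e ∈ X ∧ w e ∈ X)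

theorem bnd_add (v w : E → V) (B : Finset E) (X : Finset V) :
    (dl v w B X).card + 2 * (bndIns v w B X).card =
      (B.filter fun e => v e ∈ X).card + (B.filter fun e => w e ∈ X).card := by
  induction B using Finset.induction_on with
  | empty => simp [dl, bndIns]
  | insert e B he ih =>
    simp only [dl, bndIns] at ih ⊢
    have key : ∀ (p : E → Prop) [DecidablePred p], ((insert e B).filter p).card =
        (B.filter p).card + if p e then 1 else 0 := by
      intro p _
      rw [filter_insert]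
      split_ifs
      · rw [card_insert_of_notMem (by simp [he])]
      · rfl
    rw [key, key, key, key]
    by_cases ha : v e ∈ X <;> by_cases hb : w e ∈ X <;> simp [ha, hb] <;> omega

theorem bnd_fib (u : E → V) (B : Finset E) (Q : Finset (Finset V)) (Y : Finset V)
    (hd : ∀ P ∈ Q, ∀ P' ∈ Q, P ≠ P' → Disjoint P P') (hs : ∀ P ∈ Q, P ⊆ Y)
    (hc : ∀ x ∈ Y, ∃ P ∈ Q, x ∈ P) :
    ∑ P ∈ Q, (B.filter fun e => u e ∈ P).card = (B.filter fun e => u e ∈ Y).card := by
  rw [← card_biUnion]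
  · congr 1
    ext e
    simp only [mem_biUnion, mem_filter]
    constructor
    · rintro ⟨P, hP, h1, h2⟩
      exact ⟨h1, hs P hP h2⟩
    · rintro ⟨h1, h2⟩
      obtain ⟨P, hP, h3⟩ := hc _ h2
      exact ⟨P, hP, h1, h3⟩
  · intro P hP P' hP' hne
    rw [Function.onFun, Finset.disjoint_left]
    intro e he he'
    simp only [mem_filter] at he he'
    exact Finset.disjoint_left.1 (hd P hP P' hP' hne) he.2 he'.2

/-- the edges inside `Y` between two classes -/
theorem bnd_ins (v w : E → V) (B : Finset E) (Q : Finset (Finset V)) (Y : Finset V)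
    (hd : ∀ P ∈ Q, ∀ P' ∈ Q, P ≠ P' → Disjoint P P') (hs : ∀ P ∈ Q, P ⊆ Y)
    (hc : ∀ x ∈ Y, ∃ P ∈ Q, x ∈ P) :
    (B.filter (fun e => v e ∈ Y ∧ w e ∈ Y ∧ ∀ P ∈ Q, ¬ (v e ∈ P ∧ w e ∈ P))).card +
      ∑ P ∈ Q, (bndIns v w B P).card = (bndIns v w B Y).card := by
  rw [← card_biUnion, ← card_union_of_disjoint]
  · congr 1
    ext e
    simp only [bndIns, mem_union, mem_biUnion, mem_filter]
    constructor
    · rintro (⟨h1, h2, h3, -⟩ | ⟨P, hP, h1, h2, h3⟩)
      · exact ⟨h1, h2, h3⟩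
      · exact ⟨h1, hs P hP h2, hs P hP h3⟩
    · rintro ⟨h1, h2, h3⟩
      by_cases h : ∃ P ∈ Q, v e ∈ P ∧ w e ∈ P
      · obtain ⟨P, hP, h⟩ := h
        exact Or.inr ⟨P, hP, h1, h⟩
      · exact Or.inl ⟨h1, h2, h3, fun P hP h4 => h ⟨P, hP, h4⟩⟩
  · rw [Finset.disjoint_left]
    intro e he he'
    simp only [bndIns, mem_biUnion, mem_filter] at he he'
    obtain ⟨P, hP, -, h⟩ := he'
    exact he.2.2.2 P hP h
  · intro P hP P' hP' hne
    rw [Function.onFun, Finset.disjoint_left]
    intro e he he'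
    simp only [bndIns, mem_filter] at he he'
    exact Finset.disjoint_left.1 (hd P hP P' hP' hne) he.2.1 he'.2.1

/-- the sum of the cuts of the classes -/
theorem bnd_sum (v w : E → V) (B : Finset E) (Q : Finset (Finset V)) (Y : Finset V)
    (hd : ∀ P ∈ Q, ∀ P' ∈ Q, P ≠ P' → Disjoint P P') (hs : ∀ P ∈ Q, P ⊆ Y)
    (hc : ∀ x ∈ Y, ∃ P ∈ Q, x ∈ P) :
    ∑ P ∈ Q, (dl v w B P).card = (dl v w B Y).card +
      2 * (B.filter (fun e => v e ∈ Y ∧ w e ∈ Y ∧
        ∀ P ∈ Q, ¬ (v e ∈ P ∧ w e ∈ P))).card := by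
  have h1 := bnd_add v w B Y
  have h2 : ∑ P ∈ Q, ((dl v w B P).card + 2 * (bndIns v w B P).card) =
      (B.filter fun e => v e ∈ Y).card + (B.filter fun e => w e ∈ Y).card := by
    rw [sum_congr rfl (fun P _ => bnd_add v w B P), sum_add_distrib,
      bnd_fib v B Q Y hd hs hc, bnd_fib w B Q Y hd hs hc]
  rw [sum_add_distrib, ← mul_sum] at h2
  have h3 := bnd_ins v w B Q Y hd hs hc
  omega

/-- the cut of the union -/
theorem bnd_le (v w : E → V) (B : Finset E) (Q : Finset (Finset V)) (Y : Finset V)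
    (hs : ∀ P ∈ Q, P ⊆ Y) (hc : ∀ x ∈ Y, ∃ P ∈ Q, x ∈ P) :
    (dl v w B Y).card ≤ ∑ P ∈ Q, (dl v w B P).card := by
  refine le_trans (card_le_card ?_) card_biUnion_le
  intro e he
  simp only [dl, mem_filter, mem_biUnion] at he ⊢
  obtain ⟨h1, h2⟩ := he
  by_cases ha : v e ∈ Y
  · obtain ⟨P, hP, h⟩ := hc _ ha
    exact ⟨P, hP, h1, fun h3 => h2 ⟨fun _ => hs P hP (h3.1 h), fun _ => ha⟩⟩
  · by_cases hb : w e ∈ Y
    · obtain ⟨P, hP, h⟩ := hc _ hb
      exact ⟨P, hP, h1, fun h3 => ha (hs P hP (h3.2 h))⟩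
    · exact absurd ⟨fun h => absurd h ha, fun h => absurd h hb⟩ h2

/-- a connected class crosses a colouring with `n` colours at least `n - 1` times -/
theorem bnd_cross {I : Type} (v w : E → V) {T : Finset E} (hT : ConnOn v w T univ) :
    ∀ (n : ℕ) (p : V → I), (univ.image p).card = n → n ≤ cr v w T p univ + 1 := by
  intro n
  induction n with
  | zero => intro p _; omega
  | succ n ih =>
    intro p hp
    rcases Nat.eq_zero_or_pos n with rfl | hn
    · omega
    obtain ⟨i, hi, j, hj, hij⟩ : ∃ i ∈ univ.image p, ∃ j ∈ univ.image p, i ≠ j := by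
      have h1 : 1 < (univ.image p).card := by omega
      exact one_lt_card.1 h1
    obtain ⟨x, -, rfl⟩ := mem_image.1 hi
    obtain ⟨y, -, rfl⟩ := mem_image.1 hj
    obtain ⟨e, he, -, -, hs⟩ := hT (univ.filter fun z => p z = p x) ⟨x, by simp, by simp⟩
      ⟨y, by simp, by simpa using fun h => hij h.symm⟩
    have hne : p (v e) ≠ p (w e) := by
      intro h
      apply hs
      simp [h]
    let p' : V → I := fun z => if p z = p (w e) then p (v e) else p z
    have hp' : univ.image p' = (univ.image p).erase (p (w e)) := by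
      ext k
      simp only [mem_image, mem_univ, true_and, mem_erase, p']
      constructor
      · rintro ⟨z, rfl⟩
        split_ifs with h
        · exact ⟨hne, v e, rfl⟩
        · exact ⟨h, z, rfl⟩
      · rintro ⟨hk, z, rfl⟩
        exact ⟨z, if_neg hk⟩
    have hcard : (univ.image p').card = n := by
      rw [hp', card_erase_of_mem (mem_image_of_mem p (mem_univ _)), hp]
      rfl
    have h1 := ih p' hcard
    have h2 : cr v w T p' univ + 1 ≤ cr v w T p univ := by
      have he' : e ∈ T.filter (fun e => v e ∈ (univ : Finset V) ∧ w e ∈ (univ : Finset V) ∧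
          p (v e) ≠ p (w e)) := by
        simp [he, hne]
      unfold cr
      rw [← card_erase_add_one he']
      apply Nat.add_le_add_right
      apply card_le_card
      intro f hf
      simp only [mem_filter, mem_univ, true_and, mem_erase, p'] at hf ⊢
      refine ⟨?_, hf.1, fun h => hf.2 ?_⟩
      · rintro rfl
        apply hf.2
        rw [if_neg hne, if_pos rfl]
      · rw [h]
    omega

/-- `n` disjoint connected classes inside `H` -/
theorem bnd_cross_mul {I : Type} (v w : E → V) {H : Finset E} {n : ℕ}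
    (T : Fin n → Finset E) (hTH : ∀ i, T i ⊆ H)
    (hd : ∀ i j, i ≠ j → Disjoint (T i) (T j)) (hT : ∀ i, ConnOn v w (T i) univ)
    (p : V → I) : n * (univ.image p).card ≤ cr v w H p univ + n := by
  have h1 : ∑ i, cr v w (T i) p univ ≤ cr v w H p univ := by
    unfold cr
    rw [← card_biUnion]
    · apply card_le_card
      intro e he
      simp only [mem_biUnion, mem_filter, mem_univ, true_and] at he ⊢
      obtain ⟨i, h1, h2⟩ := he
      exact ⟨hTH i h1, h2⟩
    · intro i _ j _ hij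
      rw [Function.onFun, Finset.disjoint_left]
      intro e he he'
      exact Finset.disjoint_left.1 (hd i j hij) (mem_filter.1 he).1 (mem_filter.1 he').1
  have h2 : ∑ _i : Fin n, (univ.image p).card ≤ ∑ i : Fin n, (cr v w (T i) p univ + 1) :=
    sum_le_sum fun i _ => bnd_cross v w (hT i) _ p rfl
  rw [sum_const, sum_add_distrib, sum_const, card_univ, Fintype.card_fin, smul_eq_mul,
    smul_eq_mul, mul_one] at h2
  omega

/-- `n` disjoint connected classes give many edges in the cut of `Y` and between the pieces -/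
theorem bnd_many (v w : E → V) {H : Finset E} {n : ℕ}
    (T : Fin n → Finset E) (hTH : ∀ i, T i ⊆ H)
    (hd : ∀ i j, i ≠ j → Disjoint (T i) (T j)) (hT : ∀ i, ConnOn v w (T i) univ)
    {Y : Finset V} (hY : Y ≠ univ) (Q : Finset (Finset V))
    (hQ : ∀ P ∈ Q, P.Nonempty ∧ P ⊆ Y)
    (hQd : ∀ P ∈ Q, ∀ P' ∈ Q, P ≠ P' → Disjoint P P') (hQc : ∀ x ∈ Y, ∃ P ∈ Q, x ∈ P) :
    n * Q.card ≤ (dl v w H Y).card + (H.filter (fun e => v e ∈ Y ∧ w e ∈ Y ∧
      ∀ P ∈ Q, ¬ (v e ∈ P ∧ w e ∈ P))).card := by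
  -- the colouring by the pieces; everything outside `Y` gets the colour `univ`
  have hex : ∃ p : V → Finset V, (∀ x ∈ Y, p x ∈ Q ∧ x ∈ p x) ∧ ∀ x ∉ Y, p x = univ := by
    refine ⟨fun x => if h : x ∈ Y then (hQc x h).choose else univ, ?_, ?_⟩
    · intro x hx
      simp only [hx, dif_pos]
      exact (hQc x hx).choose_spec
    · intro x hx
      simp [hx]
  obtain ⟨p, hp1, hp2⟩ := hex
  have hnu : univ ∉ Q := by
    intro h
    exact hY (univ_subset_iff.1 (hQ _ h).2)
  have huniq : ∀ P ∈ Q, ∀ x ∈ P, p x = P := by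
    intro P hP x hx
    have hxY := (hQ P hP).2 hx
    by_contra hne
    exact Finset.disjoint_left.1 (hQd _ (hp1 x hxY).1 P hP hne) (hp1 x hxY).2 hx
  have himg : univ.image p = insert univ Q := by
    ext P
    simp only [mem_image, mem_univ, true_and, mem_insert]
    constructor
    · rintro ⟨x, rfl⟩
      by_cases hx : x ∈ Y
      · exact Or.inr (hp1 x hx).1
      · exact Or.inl (hp2 x hx)
    · rintro (rfl | hP)
      · obtain ⟨x, hx⟩ : ∃ x, x ∉ Y := by
          by_contra h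
          push Not at h
          exact hY (eq_univ_iff_forall.2 h)
        exact ⟨x, hp2 x hx⟩
      · obtain ⟨x, hx⟩ := (hQ P hP).1
        exact ⟨x, huniq P hP x hx⟩
  have hcard : (univ.image p).card = Q.card + 1 := by
    rw [himg, card_insert_of_notMem hnu]
  have hcr : cr v w H p univ ≤ (dl v w H Y).card + (H.filter (fun e => v e ∈ Y ∧ w e ∈ Y ∧
      ∀ P ∈ Q, ¬ (v e ∈ P ∧ w e ∈ P))).card := by
    refine (card_le_card ?_).trans (card_union_le _ _)
    intro e he
    simp only [mem_filter, mem_union, dl, mem_univ, true_and] at he ⊢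
    obtain ⟨h1, h2⟩ := he
    by_cases ha : v e ∈ Y
    · by_cases hb : w e ∈ Y
      · right
        refine ⟨h1, ha, hb, fun P hP h3 => h2 ?_⟩
        rw [huniq P hP _ h3.1, huniq P hP _ h3.2]
      · left
        exact ⟨h1, fun h => hb (h.1 ha)⟩
    · by_cases hb : w e ∈ Y
      · left
        exact ⟨h1, fun h => ha (h.2 hb)⟩
      · exact absurd ((hp2 _ ha).trans (hp2 _ hb).symm) h2
  have h : n * (Q.card + 1) ≤ cr v w H p univ + n := by
    rw [← hcard]
    have h0 := bnd_cross_mul v w T hTH hd hT p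
    have e : ∀ d1 d2 : DecidableEq (Finset V), (@Finset.image V (Finset V) d1 p univ).card =
        (@Finset.image V (Finset V) d2 p univ).card := fun d1 d2 => by
      rw [Subsingleton.elim d1 d2]
    exact le_trans (le_of_eq (congrArg (fun x => n * x) (e _ _))) h0
  rw [Nat.mul_add, Nat.mul_one] at h
  omega

/-- general constants: `n` classes, `t`-strong pieces, `q A(P) ≤ H(P) + c` on the pieces -/
theorem bound_gen (v w : E → V) {H A : Finset E} {n t q c : ℕ}
    (T : Fin n → Finset E) (hTH : ∀ i, T i ⊆ H)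
    (hd : ∀ i j, i ≠ j → Disjoint (T i) (T j)) (hT : ∀ i, ConnOn v w (T i) univ)
    {Y : Finset V} (hY : Y ≠ univ) (Q : Finset (Finset V))
    (hQ : ∀ P ∈ Q, P.Nonempty ∧ P ⊆ Y)
    (hQd : ∀ P ∈ Q, ∀ P' ∈ Q, P ≠ P' → Disjoint P P') (hQc : ∀ x ∈ Y, ∃ P ∈ Q, x ∈ P)
    (hcr : (H.filter (fun e => v e ∈ Y ∧ w e ∈ Y ∧
      ∀ P ∈ Q, ¬ (v e ∈ P ∧ w e ∈ P))).card + t ≤ t * Q.card)
    (hA : ∀ P ∈ Q, q * (dl v w A P).card ≤ (dl v w H P).card + c) :
    q * (dl v w A Y).card + 2 * t ≤ (dl v w H Y).card + (2 * t + c) * Q.card ∧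
      n * Q.card + t ≤ (dl v w H Y).card + t * Q.card := by
  have h0 := bnd_many v w T hTH hd hT hY Q hQ hQd hQc
  have h1 := Nat.mul_le_mul_left q (bnd_le v w A Q Y (fun P hP => (hQ P hP).2) hQc)
  have h2 := bnd_sum v w H Q Y hQd (fun P hP => (hQ P hP).2) hQc
  have h4 := Finset.sum_le_sum hA
  rw [← mul_sum, sum_add_distrib, sum_const, smul_eq_mul, h2] at h4
  have e1 : (2 * t + c) * Q.card = 2 * (t * Q.card) + Q.card * c := by ring
  rw [e1]
  constructor <;> omega

/-- `h = 64 s`, `t = 16 s` -/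
theorem bound (v w : E → V) {H A : Finset E} (hAH : A ⊆ H) (s : ℕ)
    (T : Fin (64 * s) → Finset E) (hTH : ∀ i, T i ⊆ H)
    (hd : ∀ i j, i ≠ j → Disjoint (T i) (T j)) (hT : ∀ i, ConnOn v w (T i) univ)
    {Y : Finset V} (hY : Y ≠ univ) (Q : Finset (Finset V))
    (hQ : ∀ P ∈ Q, P.Nonempty ∧ P ⊆ Y)
    (hQd : ∀ P ∈ Q, ∀ P' ∈ Q, P ≠ P' → Disjoint P P') (hQc : ∀ x ∈ Y, ∃ P ∈ Q, x ∈ P)
    (hcr : (H.filter (fun e => v e ∈ Y ∧ w e ∈ Y ∧
      ∀ P ∈ Q, ¬ (v e ∈ P ∧ w e ∈ P))).card + 16 * s ≤ 16 * s * Q.card)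
    (hA : ∀ P ∈ Q, 4 * (dl v w A P).card ≤ (dl v w H P).card + 16 * s) :
    2 * (dl v w A Y).card ≤ (dl v w H Y).card := by
  obtain ⟨h1, h2⟩ := bound_gen v w T hTH hd hT hY Q hQ hQd hQc hcr hA
  have e1 : (2 * (16 * s) + 16 * s) * Q.card = 3 * (16 * s * Q.card) := by ring
  have e2 : 64 * s * Q.card = 4 * (16 * s * Q.card) := by ring
  rw [e1] at h1
  rw [e2] at h2
  omega

end Pool.Agent.Lib.MP_21a058_co.Thin
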