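import Pool.Agent.Lib.MP_21a058_co.Thin.Piece

/-! (J) The laminar family: all pieces of a laminar family, all singletons, the whole set. -/

set_option linter.unusedSectionVars false
set_option linter.unusedVariables false

namespace Pool.Agent.Lib.MP_21a058_co.Thin

open Finset
open scoped Classical

variable {V E : Type} [Fintype V]

/-- the family of the pieces is laminar: `S` is laminar, every `Y ∈ S` has a family `π Y` of
pairwise disjoint good subsets, and every good subset of `Y` lies in one of them -/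
theorem lam_pieces {Good : Finset V → Prop} {S : Finset (Finset V)}
    (hS : ∀ Y ∈ S, ∀ Z ∈ S, Y ⊆ Z ∨ Z ⊆ Y ∨ Disjoint Y Z) (π : Finset V → Finset (Finset V))
    (hsub : ∀ Y ∈ S, ∀ W ∈ π Y, W ⊆ Y)
    (hdis : ∀ Y ∈ S, ∀ W ∈ π Y, ∀ W' ∈ π Y, W ≠ W' → Disjoint W W')
    (hgood : ∀ Y ∈ S, ∀ W ∈ π Y, Good W)
    (hmax : ∀ Y ∈ S, ∀ X : Finset V, X ⊆ Y → Good X → ∃ W ∈ π Y, X ⊆ W) :
    ∀ W ∈ S.biUnion π, ∀ W' ∈ S.biUnion π, W ⊆ W' ∨ W' ⊆ W ∨ Disjoint W W' := by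
  have key : ∀ Y ∈ S, ∀ Y' ∈ S, Y ⊆ Y' → ∀ W ∈ π Y, ∀ W' ∈ π Y', W ⊆ W' ∨ Disjoint W W' := by
    intro Y hY Y' hY' hYY' W hW W' hW'
    obtain ⟨W'', hW'', hWW⟩ := hmax Y' hY' W ((hsub Y hY W hW).trans hYY') (hgood Y hY W hW)
    by_cases h : W'' = W'
    · left
      rwa [← h]
    · right
      exact (hdis Y' hY' W'' hW'' W' hW' h).mono_left hWW
  intro W hW W' hW'
  obtain ⟨Y, hY, hWY⟩ := mem_biUnion.1 hW
  obtain ⟨Y', hY', hWY'⟩ := mem_biUnion.1 hW'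
  rcases hS Y hY Y' hY' with h | h | h
  · rcases key Y hY Y' hY' h W hWY W' hWY' with h' | h'
    · exact Or.inl h'
    · exact Or.inr (Or.inr h')
  · rcases key Y' hY' Y hY h W' hWY' W hWY with h' | h'
    · exact Or.inr (Or.inl h')
    · exact Or.inr (Or.inr h'.symm)
  · exact Or.inr (Or.inr ((h.mono_left (hsub Y hY W hWY)).mono_right (hsub Y' hY' W' hWY')))

theorem strong_singleton' (v w : E → V) (H : Finset E) (t : ℕ) (x : V) :
    Strong v w H t {x} := by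
  intro p
  rw [image_singleton, card_singleton]
  omega

/-- the family: pieces of all members of `S`, all singletons, the whole set -/
theorem exists_fam (v w : E → V) (H : Finset E) (t : ℕ) (hV : Nonempty V)
    (hu : Strong v w H t univ)
    (S : Finset (Finset V)) (hS : ∀ X ∈ S, ∀ Y ∈ S, X ⊆ Y ∨ Y ⊆ X ∨ Disjoint X Y)
    (hne : ∀ X ∈ S, X.Nonempty) (hnu : ∀ X ∈ S, X ≠ univ) :
    ∃ L : Fam V, (∀ X ∈ L.F, Strong v w H t X) ∧ ∀ Y ∈ S, ∃ Q : Finset (Finset V),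
      (∀ P ∈ Q, P ∈ L.F ∧ P ≠ univ ∧ P.Nonempty ∧ P ⊆ Y) ∧
      (∀ P ∈ Q, ∀ P' ∈ Q, P ≠ P' → Disjoint P P') ∧ (∀ x ∈ Y, ∃ P ∈ Q, x ∈ P) ∧
      (H.filter (fun e => v e ∈ Y ∧ w e ∈ Y ∧ ∀ P ∈ Q, ¬ (v e ∈ P ∧ w e ∈ P))).card + t ≤
        t * Q.card := by
  have hex : ∀ Y : Finset V, ∃ Q : Finset (Finset V), Y ∈ S →
      (∀ P ∈ Q, P.Nonempty ∧ P ⊆ Y ∧ Strong v w H t P) ∧
      (∀ P ∈ Q, ∀ P' ∈ Q, P ≠ P' → Disjoint P P') ∧ (∀ x ∈ Y, ∃ P ∈ Q, x ∈ P) ∧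
      (∀ X ⊆ Y, X.Nonempty → Strong v w H t X → ∃ P ∈ Q, X ⊆ P) ∧
      (H.filter (fun e => v e ∈ Y ∧ w e ∈ Y ∧ ∀ P ∈ Q, ¬ (v e ∈ P ∧ w e ∈ P))).card + t ≤
        t * Q.card := by
    intro Y
    by_cases hY : Y ∈ S
    · obtain ⟨Q, hQ⟩ := pieces v w H t (hne Y hY)
      exact ⟨Q, fun _ => hQ⟩
    · exact ⟨∅, fun h => absurd h hY⟩
  choose π hπ using hex
  have hlam := lam_pieces (Good := fun X : Finset V => X.Nonempty ∧ Strong v w H t X) hS π
    (fun Y hY W hW => ((hπ Y hY).1 W hW).2.1) (fun Y hY => (hπ Y hY).2.1)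
    (fun Y hY W hW => ⟨((hπ Y hY).1 W hW).1, ((hπ Y hY).1 W hW).2.2⟩)
    (fun Y hY X hX hg => (hπ Y hY).2.2.2.1 X hX hg.1 hg.2)
  have hsing : ∀ (x : V) (W : Finset V), {x} ⊆ W ∨ W ⊆ {x} ∨ Disjoint {x} W := by
    intro x W
    by_cases h : x ∈ W
    · exact Or.inl (singleton_subset_iff.2 h)
    · exact Or.inr (Or.inr (disjoint_singleton_left.2 h))
  set F : Finset (Finset V) :=
    insert univ (S.biUnion π ∪ univ.image fun x : V => ({x} : Finset V)) with hF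
  have hmem : ∀ W : Finset V, W ∈ F ↔ W = univ ∨ W ∈ S.biUnion π ∨ ∃ x, W = {x} := by
    intro W
    rw [hF, mem_insert, mem_union, mem_image]
    constructor
    · rintro (h | h | ⟨x, -, h⟩)
      · exact Or.inl h
      · exact Or.inr (Or.inl h)
      · exact Or.inr (Or.inr ⟨x, h.symm⟩)
    · rintro (h | h | ⟨x, h⟩)
      · exact Or.inl h
      · exact Or.inr (Or.inl h)
      · exact Or.inr (Or.inr ⟨x, mem_univ _, h.symm⟩)
  refine ⟨⟨F, ?_, ?_, ?_, ?_⟩, ?_, ?_⟩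
  · intro W hW W' hW'
    rw [hmem] at hW hW'
    rcases hW with h | hW | ⟨x, h⟩
    · rw [h]
      exact Or.inr (Or.inl (subset_univ _))
    · rcases hW' with h | hW' | ⟨x, h⟩
      · rw [h]
        exact Or.inl (subset_univ _)
      · exact hlam W hW W' hW'
      · rw [h]
        rcases hsing x W with h' | h' | h'
        · exact Or.inr (Or.inl h')
        · exact Or.inl h'
        · exact Or.inr (Or.inr h'.symm)
    · rw [h]
      exact hsing x W'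
  · exact (hmem _).2 (Or.inl rfl)
  · exact fun x => (hmem _).2 (Or.inr (Or.inr ⟨x, rfl⟩))
  · intro W hW
    rcases (hmem W).1 hW with h | h | ⟨x, h⟩
    · rw [h]
      exact univ_nonempty
    · obtain ⟨Y, hY, hWY⟩ := mem_biUnion.1 h
      exact ((hπ Y hY).1 W hWY).1
    · rw [h]
      exact singleton_nonempty x
  · intro W hW
    rcases (hmem W).1 hW with h | h | ⟨x, h⟩
    · rw [h]
      exact hu
    · obtain ⟨Y, hY, hWY⟩ := mem_biUnion.1 h
      exact ((hπ Y hY).1 W hWY).2.2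
    · rw [h]
      exact strong_singleton' v w H t x
  · intro Y hY
    refine ⟨π Y, ?_, (hπ Y hY).2.1, (hπ Y hY).2.2.1, (hπ Y hY).2.2.2.2⟩
    intro P hP
    obtain ⟨h1, h2, -⟩ := (hπ Y hY).1 P hP
    refine ⟨(hmem P).2 (Or.inr (Or.inl (mem_biUnion.2 ⟨Y, hY, hP⟩))), ?_, h1, h2⟩
    rintro rfl
    exact hnu Y hY (univ_subset_iff.1 h2)

end Pool.Agent.Lib.MP_21a058_co.Thin
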