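import Pool.Agent.Lib.MP_21a058_co.Thin.Defs

/-! Strong sets: a strong member of the family gives the strength of its region. -/

set_option linter.unusedSectionVars false
set_option linter.unusedVariables false

namespace Pool.Agent.Lib.MP_21a058_co.Thin

open Finset
open scoped Classical

variable {V E : Type} [Fintype V]

theorem strong_sing (v w : E → V) (H : Finset E) (t : ℕ) (x : V) : Strong v w H t {x} := by
  intro p
  rw [image_singleton, card_singleton]
  omega

theorem strong_conn (v w : E → V) {H : Finset E} {t : ℕ} (ht : 0 < t) {Y : Finset V}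
    (hs : Strong v w H t Y) : ConnOn v w H Y := by
  rintro S ⟨x, hxY, hxS⟩ ⟨y, hyY, hyS⟩
  have hxy : x ≠ y := fun h => hyS (h ▸ hxS)
  have h1 := hs (fun z => if z ∈ S then x else y)
  have h2 : 2 ≤ (Y.image (fun z => if z ∈ S then x else y)).card := by
    have h3 : ({x, y} : Finset V) ⊆ Y.image (fun z => if z ∈ S then x else y) := by
      intro z hz
      rw [mem_insert, mem_singleton] at hz
      rcases hz with rfl | rfl
      · exact mem_image.mpr ⟨z, hxY, by simp [hxS]⟩
      · exact mem_image.mpr ⟨z, hyY, by simp [hyS]⟩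
    calc 2 = ({x, y} : Finset V).card := by rw [card_pair hxy]
      _ ≤ _ := card_le_card h3
  have h4 : 0 < cr v w H (fun z => if z ∈ S then x else y) Y := by
    have h5 : t * 2 ≤ t * (Y.image (fun z => if z ∈ S then x else y)).card :=
      Nat.mul_le_mul_left t h2
    omega
  obtain ⟨e, he⟩ := card_pos.mp h4
  rw [mem_filter] at he
  refine ⟨e, he.1, he.2.1, he.2.2.1, ?_⟩
  intro h6
  apply he.2.2.2
  by_cases h7 : v e ∈ S
  · simp only [h7, h6.mp h7, if_true]
  · have h8 : w e ∉ S := fun h => h7 (h6.mpr h)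
    simp only [h7, h8, if_false]

private theorem str_anti (L : Fam V) (v w : E → V) (Y : Finset V) {J J' : Finset E}
    (h : J ⊆ J') : L.K v w Y J' ≤ L.K v w Y J := by
  intro g hg
  exact ⟨hg.1, hg.2.1, fun e he => hg.2.2 e (h he)⟩

/-- Vertices on which all functions of `K Y J` agree. -/
private def strRel (L : Fam V) (v w : E → V) (Y : Finset V) (J : Finset E) : Setoid V where
  r x y := ∀ g ∈ L.K v w Y J, g x = g y
  iseqv :=
    { refl := fun x g hg => rfl
      symm := fun h g hg => (h g hg).symm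
      trans := fun h h' g hg => (h g hg).trans (h' g hg) }

/-- A representative of the class. -/
private noncomputable def strP (L : Fam V) (v w : E → V) (Y : Finset V) (J : Finset E)
    (x : V) : V :=
  (Quotient.mk (strRel L v w Y J) x).out

private theorem strP_rel (L : Fam V) (v w : E → V) (Y : Finset V) (J : Finset E) (x : V) :
    ∀ g ∈ L.K v w Y J, g (strP L v w Y J x) = g x :=
  Quotient.exact (Quotient.out_eq (Quotient.mk (strRel L v w Y J) x))

private theorem strP_eq (L : Fam V) (v w : E → V) (Y : Finset V) (J : Finset E) {x y : V}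
    (h : ∀ g ∈ L.K v w Y J, g x = g y) : strP L v w Y J x = strP L v w Y J y := by
  unfold strP
  have h1 : Quotient.mk (strRel L v w Y J) x = Quotient.mk (strRel L v w Y J) y :=
    Quotient.sound h
  rw [h1]

private theorem str_fin_le (L : Fam V) (v w : E → V) (Y : Finset V) (J : Finset E) :
    Module.finrank ℚ (L.K v w Y J) ≤ (Y.image (strP L v w Y J)).card := by
  let φ : L.K v w Y J →ₗ[ℚ] ((Y.image (strP L v w Y J)) → ℚ) :=
    { toFun := fun g i => (g : V → ℚ) (i : V)
      map_add' := fun g g' => by ext i; simp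
      map_smul' := fun c g => by ext i; simp }
  have hinj : Function.Injective φ := by
    rw [← LinearMap.ker_eq_bot, LinearMap.ker_eq_bot']
    intro g hg
    apply Subtype.ext
    funext x
    by_cases hx : x ∈ Y
    · have h1 : (g : V → ℚ) (strP L v w Y J x) = 0 :=
        congrFun hg ⟨strP L v w Y J x, mem_image_of_mem _ hx⟩
      rw [strP_rel L v w Y J x g.1 g.2] at h1
      exact h1
    · exact g.2.1 x hx
  have h2 := LinearMap.finrank_le_finrank_of_injective hinj
  rwa [Module.finrank_fintype_fun_eq_card, Fintype.card_coe] at h2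

private theorem str_one_le (L : Fam V) (v w : E → V) {Y : Finset V} (hY : Y.Nonempty)
    (J : Finset E) : 1 ≤ Module.finrank ℚ (L.K v w Y J) := by
  obtain ⟨x, hx⟩ := hY
  have h1 : (fun z => if z ∈ Y then (1 : ℚ) else 0) ∈ L.K v w Y J := by
    refine ⟨fun z hz => by simp [hz], fun Z hZ hZY z hz z' hz' => ?_, fun e he h h' => ?_⟩
    · simp [hZY.1 hz, hZY.1 hz']
    · simp [h, h']
  have h2 : Nontrivial (L.K v w Y J) := by
    refine ⟨⟨⟨_, h1⟩, 0, ?_⟩⟩
    intro h3
    have h4 := congrFun (congrArg Subtype.val h3) x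
    simp [hx] at h4
  exact Module.finrank_pos

theorem Fam.strength_one (L : Fam V) (v w : E → V) {H : Finset E} {t : ℕ} {Y : Finset V}
    (hY : Y ∈ L.F) (hs : Strong v w H t Y) (C : Finset E) (hC : C ⊆ H) :
    t * L.rk v w Y H ≤ t * L.rk v w Y (H \ C) + (L.reg v w C Y).card := by
  have h1 := hs (strP L v w Y (H \ C))
  have h2 := str_fin_le L v w Y (H \ C)
  have h3 := str_one_le L v w (L.ne Y hY) H
  have h4 : cr v w H (strP L v w Y (H \ C)) Y ≤ (L.reg v w C Y).card := by
    apply card_le_card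
    intro e he
    rw [mem_filter] at he
    obtain ⟨heH, hv, hw, hne⟩ := he
    have h5 : ¬ ∀ g ∈ L.K v w Y (H \ C), g (v e) = g (w e) :=
      fun h => hne (strP_eq L v w Y (H \ C) h)
    refine mem_filter.mpr ⟨?_, hv, hw, ?_⟩
    · by_contra heC
      exact h5 (fun g hg => hg.2.2 e (mem_sdiff.mpr ⟨heH, heC⟩) hv hw)
    · intro Z hZ hZY hZe
      exact h5 (fun g hg => hg.2.1 Z hZ hZY _ hZe.1 _ hZe.2)
  have h6 : Module.finrank ℚ (L.K v w Y (H \ C)) ≤ Module.finrank ℚ (L.K v w Y ∅) :=
    Submodule.finrank_mono (str_anti L v w Y (empty_subset _))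
  have h7 : t * Module.finrank ℚ (L.K v w Y (H \ C)) ≤ (L.reg v w C Y).card + t :=
    (Nat.mul_le_mul_left t h2).trans (h1.trans (by omega))
  have h8 : t * (L.rk v w Y (H \ C)) + t * Module.finrank ℚ (L.K v w Y (H \ C)) =
      t * Module.finrank ℚ (L.K v w Y ∅) := by
    rw [← Nat.mul_add]
    unfold Fam.rk
    congr 1
    omega
  have h9 : t * (L.rk v w Y H) + t ≤ t * Module.finrank ℚ (L.K v w Y ∅) := by
    rw [← Nat.mul_succ]
    apply Nat.mul_le_mul_left
    unfold Fam.rk
    have h10 : 1 ≤ Module.finrank ℚ (L.K v w Y ∅) := str_one_le L v w (L.ne Y hY) ∅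
    omega
  omega

private theorem str_reg_sum (L : Fam V) (v w : E → V) (B : Finset E) :
    ∑ Y ∈ L.F, (L.reg v w B Y).card ≤ B.card := by
  rw [← card_biUnion]
  · apply card_le_card
    intro e he
    obtain ⟨Y, hY, he⟩ := mem_biUnion.mp he
    exact (mem_filter.mp he).1
  · intro Y hY Y' hY' hne
    show Disjoint (L.reg v w B Y) (L.reg v w B Y')
    rw [disjoint_left]
    intro e he he'
    obtain ⟨-, h1, h2, h3⟩ := mem_filter.mp he
    obtain ⟨-, k1, k2, k3⟩ := mem_filter.mp he'
    rcases L.lam Y hY Y' hY' with h | h | h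
    · exact k3 Y hY (h.ssubset_of_ne hne) ⟨h1, h2⟩
    · exact h3 Y' hY' (h.ssubset_of_ne hne.symm) ⟨k1, k2⟩
    · exact disjoint_left.mp h h1 k1

theorem Fam.strength (L : Fam V) (v w : E → V) {H : Finset E} {t : ℕ}
    (hs : ∀ Y ∈ L.F, Strong v w H t Y) (C : Finset E) (hC : C ⊆ H) :
    t * L.R v w H ≤ t * L.R v w (H \ C) + C.card := by
  have h1 : ∑ Y ∈ L.F, t * L.rk v w Y H ≤
      ∑ Y ∈ L.F, (t * L.rk v w Y (H \ C) + (L.reg v w C Y).card) :=
    sum_le_sum (fun Y hY => L.strength_one v w hY (hs Y hY) C hC)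
  rw [sum_add_distrib, ← mul_sum, ← mul_sum] at h1
  have h2 := str_reg_sum L v w C
  unfold Fam.R
  omega

end Pool.Agent.Lib.MP_21a058_co.Thin
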