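import Pool.Agent.Lib.MP_21a058_co.Thin.Defs
import Pool.Agent.Lib.MP_21a058_co.P.Bridge

/-! From a graph theorem in the letters of Thin/Defs to `Arrow k ks` for every tuple `ks`. -/

set_option linter.unusedSectionVars false
set_option linter.unusedVariables false

namespace Pool.Agent.Lib.MP_21a058_co.Thin

open Finset
open scoped Classical

section mem
variable {V E : Type} [Fintype V]

theorem mem_dl' {v w : E → V} {B : Finset E} {W : Finset V} {e : E} :
    e ∈ dl v w B W ↔ e ∈ B ∧ ¬ (v e ∈ W ↔ w e ∈ W) := by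
  unfold dl
  rw [mem_filter]

theorem mem_rest [Fintype E] {s : ℕ} {v w : E → V} {A : Fin s → Finset E} {W : Finset V}
    {e : E} : e ∈ dl v w (univ \ univ.biUnion A) W ↔
      (∀ i, e ∉ A i) ∧ ¬ (v e ∈ W ↔ w e ∈ W) := by
  rw [mem_dl', mem_sdiff, mem_biUnion]
  simp

end mem

/-- The bridge in the letters of Thin/Defs. -/
theorem arrow_of_main {k l s : ℕ}
    (h : ∀ (V E : Type) [Fintype V] [Fintype E] (v w : E → V), Nonempty V →
      (∀ e, v e ≠ w e) →
      (∀ X : Finset V, X.Nonempty → X ≠ univ → k ≤ (dl v w univ X).card) →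
      ∃ A : Fin s → Finset E, (∀ i j, i ≠ j → Disjoint (A i) (A j)) ∧
        (∀ i, ConnOn v w (A i) univ) ∧ ∀ X : Finset V, X.Nonempty → X ≠ univ →
          l ≤ (dl v w (univ \ univ.biUnion A) X).card)
    {r : ℕ} (ks : Fin r → ℕ) (j : Fin r) (hs : ∑ i ∈ univ.erase j, ks i ≤ s)
    (hl : ks j ≤ l) : Pool.Agent.Lib.MP_21a058_co.Arrow k ks := by
  refine P.arrow_of_thin (k := k) (s := s) (l := l) ?_ ks j hs hl
  intro V E _ _ _ _ a b hV hne hcut
  obtain ⟨A, hd, hc, hl⟩ := h V E a b hV hne (by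
    intro X hX hX'
    refine (hcut X hX hX').trans (card_le_card ?_)
    intro e he
    exact mem_dl'.2 ⟨mem_univ _, (P.mem_cut a b).1 he⟩)
  refine ⟨A, hd, ?_, ?_⟩
  · intro i Y _ hY hY'
    obtain ⟨x, hx⟩ := hY
    have hex : ∃ y, y ∉ Y := by
      by_contra hcon
      push Not at hcon
      exact hY' (eq_univ_of_forall hcon)
    obtain ⟨y, hy⟩ := hex
    obtain ⟨e, he, -, -, hh⟩ := hc i Y ⟨x, mem_univ _, hx⟩ ⟨y, mem_univ _, hy⟩
    exact ⟨e, he, (P.mem_ins a b).2 ⟨mem_univ _, mem_univ _⟩, (P.mem_cut a b).2 hh⟩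
  · intro Z hZ hZ'
    refine (hl Z hZ hZ').trans (card_le_card ?_)
    intro e he
    obtain ⟨h1, h2⟩ := mem_rest.1 he
    refine mem_sdiff.2 ⟨(P.mem_cut a b).2 h2, fun h4 => ?_⟩
    obtain ⟨i, -, hi⟩ := mem_biUnion.1 h4
    exact h1 i hi

end Pool.Agent.Lib.MP_21a058_co.Thin
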