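import Pool.Agent.Lib.MP_21a058_co.Thin.Defs

/-! Two crossing sets: every connected class has at least three edges at them. -/

set_option linter.unusedSectionVars false
set_option linter.unusedVariables false

namespace Pool.Agent.Lib.MP_21a058_co.Thin

open Finset
open scoped Classical

variable {V E : Type} [Fintype V]

/-- if at most one edge of `T` crosses `W` then `T` is connected inside `W` -/
theorem conn_inside (v w : E → V) {T : Finset E} (hT : ConnOn v w T univ) {W : Finset V}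
    (h1 : (dl v w T W).card ≤ 1) : ConnOn v w T W := by
  rintro S ⟨x, hx, hxS⟩ ⟨y, hy, hyS⟩
  by_contra hcon
  push Not at hcon
  -- the sets `W ∩ S` and `W \ S` are both left by an edge, which crosses `W`
  obtain ⟨e, he, -, -, hce⟩ := hT (W ∩ S) ⟨x, mem_univ _, mem_inter.2 ⟨hx, hxS⟩⟩
    ⟨y, mem_univ _, fun h => hyS (mem_inter.1 h).2⟩
  obtain ⟨f, hf, -, -, hcf⟩ := hT (W \ S) ⟨y, mem_univ _, mem_sdiff.2 ⟨hy, hyS⟩⟩
    ⟨x, mem_univ _, fun h => (mem_sdiff.1 h).2 hxS⟩
  rw [mem_inter, mem_inter] at hce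
  rw [mem_sdiff, mem_sdiff] at hcf
  have hce' : e ∈ dl v w T W := by
    refine mem_filter.2 ⟨he, fun h => ?_⟩
    by_cases hv : v e ∈ W
    · have := hcon e he hv (h.1 hv)
      have hw := h.1 hv
      tauto
    · have hw : w e ∉ W := fun hw => hv (h.2 hw)
      tauto
  have hcf' : f ∈ dl v w T W := by
    refine mem_filter.2 ⟨hf, fun h => ?_⟩
    by_cases hv : v f ∈ W
    · have := hcon f hf hv (h.1 hv)
      have hw := h.1 hv
      tauto
    · have hw : w f ∉ W := fun hw => hv (h.2 hw)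
      tauto
  have hef : e = f := card_le_one.1 h1 e hce' f hcf'
  subst hef
  have h2 := (mem_filter.1 hce').2
  tauto

/-- one connected class -/
theorem three_cross (v w : E → V) {T : Finset E} (hT : ConnOn v w T univ)
    {X Y : Finset V} {r : V} (hrX : r ∉ X) (hrY : r ∉ Y) (h1 : (X ∩ Y).Nonempty)
    (h2 : (X \ Y).Nonempty) (h3 : (Y \ X).Nonempty) :
    3 ≤ (dl v w T X).card + (dl v w T Y).card := by
  obtain ⟨x, hx⟩ := h1
  obtain ⟨y, hy⟩ := h2
  obtain ⟨z, hz⟩ := h3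
  rw [mem_inter] at hx
  rw [mem_sdiff] at hy hz
  have cX : 1 ≤ (dl v w T X).card := by
    obtain ⟨e, he, -, -, hce⟩ := hT X ⟨x, mem_univ _, hx.1⟩ ⟨r, mem_univ _, hrX⟩
    exact card_pos.2 ⟨e, mem_filter.2 ⟨he, hce⟩⟩
  have cY : 1 ≤ (dl v w T Y).card := by
    obtain ⟨e, he, -, -, hce⟩ := hT Y ⟨x, mem_univ _, hx.2⟩ ⟨r, mem_univ _, hrY⟩
    exact card_pos.2 ⟨e, mem_filter.2 ⟨he, hce⟩⟩
  by_contra hcon
  have hcX : (dl v w T X).card ≤ 1 := by omega
  have hcY : (dl v w T Y).card ≤ 1 := by omega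
  have hX' : (dl v w T Xᶜ).card ≤ 1 := by
    have : dl v w T Xᶜ = dl v w T X := by
      unfold dl
      refine filter_congr fun e _ => ?_
      rw [mem_compl, mem_compl]
      tauto
    rwa [this]
  obtain ⟨e, he, hve, hwe, hce⟩ := conn_inside v w hT hcX Y ⟨x, hx.1, hx.2⟩ ⟨y, hy.1, hy.2⟩
  obtain ⟨f, hf, hvf, hwf, hcf⟩ := conn_inside v w hT hX' Y ⟨z, mem_compl.2 hz.2, hz.1⟩
    ⟨r, mem_compl.2 hrX, hrY⟩
  have hef : e = f := card_le_one.1 hcY e (mem_filter.2 ⟨he, hce⟩) f (mem_filter.2 ⟨hf, hcf⟩)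
  subst hef
  exact (mem_compl.1 hvf) hve

/-- disjoint classes inside `H`: the numbers of edges at a cut add up to at most that of `H` -/
theorem sum_dl_le (v w : E → V) {H : Finset E} {n : ℕ}
    (T : Fin n → Finset E) (hTH : ∀ i, T i ⊆ H)
    (hd : ∀ i j, i ≠ j → Disjoint (T i) (T j)) (X : Finset V) :
    ∑ i, (dl v w (T i) X).card ≤ (dl v w H X).card := by
  rw [← card_biUnion]
  · refine card_le_card ?_
    intro e he
    obtain ⟨i, -, hei⟩ := mem_biUnion.1 he
    exact mem_filter.2 ⟨hTH i (mem_filter.1 hei).1, (mem_filter.1 hei).2⟩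
  · intro i _ j _ hij
    exact (hd i j hij).mono (filter_subset _ _) (filter_subset _ _)

/-- two crossing sets (with a vertex outside both) -/
theorem four (v w : E → V) {H : Finset E} {n : ℕ}
    (T : Fin n → Finset E) (hTH : ∀ i, T i ⊆ H)
    (hd : ∀ i j, i ≠ j → Disjoint (T i) (T j)) (hT : ∀ i, ConnOn v w (T i) univ)
    {X Y : Finset V} {r : V} (hrX : r ∉ X) (hrY : r ∉ Y) (h1 : (X ∩ Y).Nonempty)
    (h2 : (X \ Y).Nonempty) (h3 : (Y \ X).Nonempty) :
    3 * n ≤ (dl v w H X).card + (dl v w H Y).card := by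
  have h4 : ∑ i : Fin n, 3 ≤ ∑ i, ((dl v w (T i) X).card + (dl v w (T i) Y).card) :=
    sum_le_sum fun i _ => three_cross v w (hT i) hrX hrY h1 h2 h3
  rw [sum_const, card_univ, Fintype.card_fin, smul_eq_mul, sum_add_distrib] at h4
  have h5 := sum_dl_le v w T hTH hd X
  have h6 := sum_dl_le v w T hTH hd Y
  omega

end Pool.Agent.Lib.MP_21a058_co.Thin
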