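import Pool.Agent.Lib.MP_21a058_co.Thin.Defs
import Pool.Agent.Lib.MP_21a058_co.Thin.Four

/-! Thin trees, file (I): a connected class crosses a partition into `n` classes at least `n - 1` times
(`four` is in Four.lean). -/

set_option linter.unusedSectionVars false
set_option linter.unusedVariables false

namespace Pool.Agent.Lib.MP_21a058_co.Thin

open Finset
open scoped Classical

variable {V E : Type} [Fintype V]

/-- growing a set of classes along the edges of a connected class -/
private theorem grow {I : Type} (v w : E → V) {T : Finset E} (hT : ConnOn v w T univ)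
    (p : V → I) : ∀ m : ℕ, m + 1 ≤ (univ.image p).card →
    ∃ S : Finset I, S ⊆ univ.image p ∧ S.card = m + 1 ∧
      ∃ U : Finset E, U ⊆ T.filter (fun e => v e ∈ (univ : Finset V) ∧ w e ∈ (univ : Finset V) ∧
          p (v e) ≠ p (w e)) ∧
        (∀ e ∈ U, p (v e) ∈ S ∧ p (w e) ∈ S) ∧ U.card = m := by
  intro m
  induction m with
  | zero =>
    intro hm
    obtain ⟨s, hs⟩ := card_pos.1 (show 0 < (univ.image p).card by omega)
    exact ⟨{s}, singleton_subset_iff.2 hs, card_singleton s, ∅, empty_subset _,
      fun e he => absurd he (notMem_empty e), card_empty⟩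
  | succ m ih =>
    intro hm
    obtain ⟨S, hS, hSc, U, hU, hUS, hUc⟩ := ih (by omega)
    have hex : ∃ s ∈ univ.image p, s ∉ S := by
      by_contra hcon
      push Not at hcon
      have := card_le_card (show univ.image p ⊆ S from hcon)
      omega
    obtain ⟨s, hs, hsS⟩ := hex
    obtain ⟨x, -, hxs⟩ := mem_image.1 hs
    obtain ⟨s', hs'⟩ := card_pos.1 (show 0 < S.card by omega)
    obtain ⟨y, -, hys⟩ := mem_image.1 (hS hs')
    obtain ⟨e, heT, h1, h2, hec⟩ := hT (univ.filter fun x => p x ∈ S)
      ⟨y, mem_univ _, mem_filter.2 ⟨mem_univ _, by rw [hys]; exact hs'⟩⟩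
      ⟨x, mem_univ _, fun hh => hsS (by
        have h3 := (mem_filter.1 hh).2
        rwa [hxs] at h3)⟩
    rw [mem_filter, mem_filter] at hec
    have hec' : ¬ (p (v e) ∈ S ↔ p (w e) ∈ S) := fun hh =>
      hec ⟨fun h3 => ⟨mem_univ _, hh.1 h3.2⟩, fun h3 => ⟨mem_univ _, hh.2 h3.2⟩⟩
    have heU : e ∉ U := fun hh => hec' ⟨fun _ => (hUS e hh).2, fun _ => (hUS e hh).1⟩
    have hne' : p (v e) ≠ p (w e) := fun hh => hec' (by rw [hh])
    have hins : insert e U ⊆ T.filter (fun e => v e ∈ (univ : Finset V) ∧
        w e ∈ (univ : Finset V) ∧ p (v e) ≠ p (w e)) :=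
      insert_subset (mem_filter.2 ⟨heT, h1, h2, hne'⟩) hU
    by_cases h3 : p (v e) ∈ S
    · have h4 : p (w e) ∉ S := fun h4 => hec' ⟨fun _ => h4, fun _ => h3⟩
      refine ⟨insert (p (w e)) S, insert_subset (mem_image_of_mem p h2) hS,
        by rw [card_insert_of_notMem h4, hSc], insert e U, hins, ?_,
        by rw [card_insert_of_notMem heU, hUc]⟩
      intro f hf
      rcases mem_insert.1 hf with rfl | hf
      · exact ⟨mem_insert_of_mem h3, mem_insert_self _ _⟩
      · exact ⟨mem_insert_of_mem (hUS f hf).1, mem_insert_of_mem (hUS f hf).2⟩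
    · have h4 : p (w e) ∈ S := by
        by_contra h4
        exact hec' ⟨fun h5 => absurd h5 h3, fun h5 => absurd h5 h4⟩
      refine ⟨insert (p (v e)) S, insert_subset (mem_image_of_mem p h1) hS,
        by rw [card_insert_of_notMem h3, hSc], insert e U, hins, ?_,
        by rw [card_insert_of_notMem heU, hUc]⟩
      intro f hf
      rcases mem_insert.1 hf with rfl | hf
      · exact ⟨mem_insert_self _ _, mem_insert_of_mem h4⟩
      · exact ⟨mem_insert_of_mem (hUS f hf).1, mem_insert_of_mem (hUS f hf).2⟩

/-- A connected class crosses a partition into `n` classes at least `n - 1` times. -/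
theorem conn_cross {I : Type} (v w : E → V) {T : Finset E} (hT : ConnOn v w T univ)
    (p : V → I) : (univ.image p).card ≤ cr v w T p univ + 1 := by
  unfold cr
  rcases Nat.eq_zero_or_pos (univ.image p).card with h0 | h0
  · omega
  · obtain ⟨m, hm⟩ : ∃ m, (univ.image p).card = m + 1 := ⟨(univ.image p).card - 1, by omega⟩
    obtain ⟨S, -, -, U, hU, -, hUc⟩ := grow v w hT p m (by omega)
    have h1 := card_le_card hU
    omega

/-- `n` disjoint connected classes inside `H` -/
theorem conn_cross_mul {I : Type} (v w : E → V) {H : Finset E} {n : ℕ}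
    (T : Fin n → Finset E) (hTH : ∀ i, T i ⊆ H)
    (hd : ∀ i j, i ≠ j → Disjoint (T i) (T j)) (hT : ∀ i, ConnOn v w (T i) univ)
    (p : V → I) : n * (univ.image p).card ≤ cr v w H p univ + n := by
  have h1 : ∑ i : Fin n, (univ.image p).card ≤ ∑ i : Fin n, (cr v w (T i) p univ + 1) :=
    sum_le_sum fun i _ => conn_cross v w (hT i) p
  rw [sum_add_distrib, sum_const, sum_const, card_univ, Fintype.card_fin, smul_eq_mul, smul_eq_mul,
    mul_one] at h1
  have h2 : ∑ i : Fin n, cr v w (T i) p univ ≤ cr v w H p univ := by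
    unfold cr
    rw [← card_biUnion]
    · refine card_le_card fun e he => ?_
      obtain ⟨i, -, h3⟩ := mem_biUnion.1 he
      rw [mem_filter] at h3 ⊢
      exact ⟨hTH i h3.1, h3.2⟩
    · intro i _ j _ hij
      exact (hd i j hij).mono (filter_subset _ _) (filter_subset _ _)
  omega

end Pool.Agent.Lib.MP_21a058_co.Thin
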