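import Pool.Agent.Lib.MP_21a058_co.Thin.Rk

/-! Thin trees: definitions. A multigraph is given by the two end functions `v w : E → V`
(the end `v e` is the assigned end of `e`). -/

set_option linter.unusedSectionVars false
set_option linter.unusedVariables false

namespace Pool.Agent.Lib.MP_21a058_co.Thin

open Finset
open scoped Classical

/-- A laminar family of vertex sets which contains the whole set and all singletons. -/
structure Fam (V : Type) [Fintype V] where
  F : Finset (Finset V)
  lam : ∀ X ∈ F, ∀ Y ∈ F, X ⊆ Y ∨ Y ⊆ X ∨ Disjoint X Y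
  top : univ ∈ F
  sing : ∀ x : V, {x} ∈ F
  ne : ∀ X ∈ F, X.Nonempty

variable {V E : Type} [Fintype V]

/-- The smallest member of the family which strictly contains `W`. -/
noncomputable def Fam.par (L : Fam V) (W : Finset V) : Finset V :=
  (L.F.filter (fun Z => W ⊂ Z)).inf id

/-- The children of `Y`. -/
noncomputable def Fam.ch (L : Fam V) (Y : Finset V) : Finset (Finset V) :=
  L.F.filter (fun W => W ≠ univ ∧ L.par W = Y)

/-- Edges of `B` which leave `W` and have their assigned end in `W`. -/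
noncomputable def D (v w : E → V) (B : Finset E) (W : Finset V) : Finset E :=
  B.filter (fun e => v e ∈ W ∧ w e ∉ W)

/-- Edges of `B` with exactly one end in `W`. -/
noncomputable def dl (v w : E → V) (B : Finset E) (W : Finset V) : Finset E :=
  B.filter (fun e => ¬ (v e ∈ W ↔ w e ∈ W))

/-- Edges of `B` inside `Y` which lie in no smaller member of the family. -/
noncomputable def Fam.reg (L : Fam V) (v w : E → V) (B : Finset E) (Y : Finset V) : Finset E :=
  B.filter (fun e => v e ∈ Y ∧ w e ∈ Y ∧ ∀ Z ∈ L.F, Z ⊂ Y → ¬ (v e ∈ Z ∧ w e ∈ Z))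

/-- Functions which vanish off `Y`, are constant on every smaller member of the family and
along the edges of `J` inside `Y`. -/
def Fam.K (L : Fam V) (v w : E → V) (Y : Finset V) (J : Finset E) : Submodule ℚ (V → ℚ) where
  carrier := {g | (∀ x, x ∉ Y → g x = 0) ∧
    (∀ Z ∈ L.F, Z ⊂ Y → ∀ x ∈ Z, ∀ y ∈ Z, g x = g y) ∧
    ∀ e ∈ J, v e ∈ Y → w e ∈ Y → g (v e) = g (w e)}
  add_mem' := by
    rintro f g ⟨h1, h2, h3⟩ ⟨k1, k2, k3⟩
    refine ⟨fun x hx => ?_, fun Z hZ hZY x hx y hy => ?_, fun e he h h' => ?_⟩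
    · simp [h1 x hx, k1 x hx]
    · simp [h2 Z hZ hZY x hx y hy, k2 Z hZ hZY x hx y hy]
    · simp [h3 e he h h', k3 e he h h']
  zero_mem' := by
    refine ⟨fun x hx => rfl, fun Z hZ hZY x hx y hy => rfl, fun e he h h' => rfl⟩
  smul_mem' := by
    rintro c g ⟨k1, k2, k3⟩
    refine ⟨fun x hx => ?_, fun Z hZ hZY x hx y hy => ?_, fun e he h h' => ?_⟩
    · simp [k1 x hx]
    · simp [k2 Z hZ hZY x hx y hy]
    · simp [k3 e he h h']

/-- Rank of the edge set `J` in the region of `Y` (`Y` with its children contracted). -/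
noncomputable def Fam.rk (L : Fam V) (v w : E → V) (Y : Finset V) (J : Finset E) : ℕ :=
  Module.finrank ℚ (L.K v w Y ∅) - Module.finrank ℚ (L.K v w Y J)

/-- The total rank (sum over all regions). -/
noncomputable def Fam.R (L : Fam V) (v w : E → V) (J : Finset E) : ℕ :=
  ∑ Y ∈ L.F, L.rk v w Y J

/-- `Y` is connected by edges of `H` inside `Y` (cut form). -/
def ConnOn (v w : E → V) (H : Finset E) (Y : Finset V) : Prop :=
  ∀ S : Finset V, (∃ x ∈ Y, x ∈ S) → (∃ x ∈ Y, x ∉ S) →
    ∃ e ∈ H, v e ∈ Y ∧ w e ∈ Y ∧ ¬ (v e ∈ S ↔ w e ∈ S)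

/-- Number of edges of `H` inside `X` which join different classes of `p`. -/
noncomputable def cr {I : Type} (v w : E → V) (H : Finset E) (p : V → I) (X : Finset V) : ℕ :=
  (H.filter (fun e => v e ∈ X ∧ w e ∈ X ∧ p (v e) ≠ p (w e))).card

/-- `X` is `t`-strong: every partition of `X` into `n` classes has at least `t (n - 1)`
crossing edges inside `X`. -/
def Strong (v w : E → V) (H : Finset E) (t : ℕ) (X : Finset V) : Prop :=
  ∀ p : V → V, t * (X.image p).card ≤ cr v w H p X + t

end Pool.Agent.Lib.MP_21a058_co.Thin
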