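import Pool.Agent.Lib.MP_21a058_co.Thin.Defs
import Pool.Agent.Lib.MP_21a058_co.P.PackS

/-! Tree packing (letter G3), from `MP21a058.pack_str`. -/

set_option linter.unusedSectionVars false
set_option linter.unusedVariables false

namespace Pool.Agent.Lib.MP_21a058_co.Thin

open Finset
open scoped Classical

variable {V E : Type} [Fintype V]

/-- the cuts of the classes of a colouring count every edge between classes twice -/
theorem tp_count (v w : E → V) (H : Finset E) (t : ℕ)
    (h : ∀ X : Finset V, X.Nonempty → X ≠ univ → 2 * t ≤ (dl v w H X).card) (c : V → V) :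
    t * ((univ.image c).card - 1) ≤ (H.filter fun e => c (v e) ≠ c (w e)).card := by
  by_cases hc : (univ.image c).card ≤ 1
  · have : (univ.image c).card - 1 = 0 := by omega
    rw [this, Nat.mul_zero]
    exact Nat.zero_le _
  push Not at hc
  have hZ : ∀ x ∈ univ.image c, 2 * t ≤ (dl v w H (univ.filter fun u => c u = x)).card := by
    intro x hx
    apply h
    · obtain ⟨u, -, hu⟩ := mem_image.1 hx
      exact ⟨u, by simp [hu]⟩
    · intro hh
      obtain ⟨y, hy, hxy⟩ := exists_mem_ne hc x
      obtain ⟨u, -, hu⟩ := mem_image.1 hy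
      have h1 : u ∈ univ.filter fun u => c u = x := by rw [hh]; exact mem_univ u
      rw [mem_filter] at h1
      exact hxy (hu.symm.trans h1.2)
  have h1 : (univ.image c).card * (2 * t) ≤
      ∑ x ∈ univ.image c, (dl v w H (univ.filter fun u => c u = x)).card := by
    rw [← smul_eq_mul]
    exact card_nsmul_le_sum _ _ _ hZ
  have h2 : ∑ x ∈ univ.image c, (dl v w H (univ.filter fun u => c u = x)).card =
      ∑ e ∈ H, ∑ x ∈ univ.image c, if ¬ (c (v e) = x ↔ c (w e) = x) then 1 else 0 := by
    rw [sum_comm]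
    apply sum_congr rfl
    intro x _
    unfold dl
    rw [card_filter]
    apply sum_congr rfl
    intro e _
    simp only [mem_filter, mem_univ, true_and]
  have h3 : ∀ e ∈ H, (∑ x ∈ univ.image c, if ¬ (c (v e) = x ↔ c (w e) = x) then 1 else 0) ≤
      if c (v e) ≠ c (w e) then 2 else 0 := by
    intro e _
    rw [← card_filter]
    by_cases he : c (v e) = c (w e)
    · rw [if_neg (not_not.2 he), Nat.le_zero, card_eq_zero, filter_eq_empty_iff]
      intro x _ hx
      apply hx
      rw [he]
    · rw [if_pos he]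
      have hsub : (univ.image c).filter (fun x => ¬ (c (v e) = x ↔ c (w e) = x)) ⊆ {c (v e), c (w e)} := by
        intro x hx
        rw [mem_filter] at hx
        by_contra hcon
        rw [mem_insert, mem_singleton, not_or] at hcon
        exact hx.2 ⟨fun hh => absurd hh.symm hcon.1, fun hh => absurd hh.symm hcon.2⟩
      exact (card_le_card hsub).trans card_le_two
  have h4 : (∑ e ∈ H, if c (v e) ≠ c (w e) then 2 else 0) = 2 * (H.filter fun e => c (v e) ≠ c (w e)).card := by
    rw [← sum_filter, sum_const, smul_eq_mul, mul_comm]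
  have h5 := sum_le_sum h3
  rw [← h2, h4] at h5
  have h6 : t * ((univ.image c).card - 1) ≤ t * (univ.image c).card := Nat.mul_le_mul_left t (Nat.sub_le _ _)
  have h7 : 2 * (t * (univ.image c).card) = (univ.image c).card * (2 * t) := by ring
  omega

/-- tree packing: all cuts `≥ 2 t` give `t` disjoint connected classes -/
theorem tree_packing (v w : E → V) (H : Finset E) (t : ℕ) (hV : Nonempty V)
    (h : ∀ X : Finset V, X.Nonempty → X ≠ univ → 2 * t ≤ (dl v w H X).card) :
    ∃ T : Fin t → Finset E, (∀ i, T i ⊆ H) ∧ (∀ i j, i ≠ j → Disjoint (T i) (T j)) ∧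
      ∀ i, ConnOn v w (T i) univ := by
  obtain ⟨T, h1, h2, h3⟩ := MP21a058.pack_str v w H t (tp_count v w H t h)
  refine ⟨T, h1, h2, fun i S hS hS' => ?_⟩
  obtain ⟨x, -, hx⟩ := hS
  obtain ⟨y, -, hy⟩ := hS'
  obtain ⟨e, he, hne⟩ := MP21a058.cross_of_gk (h3 i).2.ge S hx hy
  exact ⟨e, he, mem_univ _, mem_univ _, hne⟩

end Pool.Agent.Lib.MP_21a058_co.Thin
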