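import Pool.Agent.Lib.MP_21a058_co.Thin.Two
import Pool.Agent.Lib.MP_21a058_co.Thin.TPack
import Pool.Agent.Lib.MP_21a058_co.Thin.Four
import Pool.Agent.Lib.MP_21a058_co.Thin.Lam
import Pool.Agent.Lib.MP_21a058_co.Thin.Bnd
import Pool.Agent.Lib.MP_21a058_co.Thin.Tree

/-! Thin trees: a `k`-edge-connected multigraph has `s` disjoint connected classes whose removal leaves
every cut with at least `l` edges, `4 l + 384 s + 3 ≤ 3 k`. -/

set_option linter.unusedSectionVars false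
set_option linter.unusedVariables false

namespace Pool.Agent.Lib.MP_21a058_co.Thin

open Finset
open scoped Classical

variable {V E : Type} [Fintype V]

lemma dl_compl (v w : E → V) (B : Finset E) (X : Finset V) : dl v w B Xᶜ = dl v w B X := by
  unfold dl
  refine filter_congr fun e _ => ?_
  rw [mem_compl, mem_compl]
  tauto

lemma dl_mono (v w : E → V) {B C : Finset E} (h : B ⊆ C) (X : Finset V) :
    dl v w B X ⊆ dl v w C X := filter_subset_filter _ h

lemma dl_sdiff (v w : E → V) (B A : Finset E) (X : Finset V) :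
    dl v w (B \ A) X = dl v w B X \ dl v w A X := by
  unfold dl
  ext e
  simp only [mem_filter, mem_sdiff]
  tauto

/-- `n` disjoint connected classes cross every cut at least `n` times -/
lemma cut_ge_of_trees (v w : E → V) {H : Finset E} {n : ℕ} (T : Fin n → Finset E)
    (hTH : ∀ i, T i ⊆ H) (hd : ∀ i j, i ≠ j → Disjoint (T i) (T j))
    (hT : ∀ i, ConnOn v w (T i) univ) {X : Finset V} (hX : X.Nonempty) {r : V} (hr : r ∉ X) :
    n ≤ (dl v w H X).card := by
  obtain ⟨x, hx⟩ := hX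
  obtain ⟨p, hp⟩ : ∃ p : V → V, p = fun y => if y ∈ X then x else r := ⟨_, rfl⟩
  have hxr : x ≠ r := fun h1 => hr (by rw [← h1]; exact hx)
  have h1 := conn_cross_mul v w T hTH hd hT p
  have h2 : 1 < (univ.image p).card := by
    rw [one_lt_card]
    refine ⟨p x, mem_image_of_mem _ (mem_univ _), p r, mem_image_of_mem _ (mem_univ _), ?_⟩
    rw [hp]
    beta_reduce
    rw [if_pos hx, if_neg hr]
    exact hxr
  have h3 : cr v w H p univ ≤ (dl v w H X).card := by
    unfold cr dl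
    refine card_le_card fun e he => ?_
    obtain ⟨h4, -, -, h5⟩ := mem_filter.1 he
    refine mem_filter.2 ⟨h4, fun h6 => h5 ?_⟩
    rw [hp]
    beta_reduce
    by_cases h7 : v e ∈ X
    · rw [if_pos h7, if_pos (h6.1 h7)]
    · rw [if_neg h7, if_neg fun h8 => h7 (h6.2 h8)]
  have h4 : n * 2 ≤ n * (univ.image p).card := Nat.mul_le_mul_left _ h2
  omega

theorem main [Fintype E] (v w : E → V) (k l s : ℕ) (hV : Nonempty V)
    (hk : ∀ X : Finset V, X.Nonempty → X ≠ univ → k ≤ (dl v w univ X).card)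
    (h : 4 * l + 384 * s + 3 ≤ 3 * k) :
    ∃ A : Fin s → Finset E, (∀ i j, i ≠ j → Disjoint (A i) (A j)) ∧
      (∀ i, ConnOn v w (A i) univ) ∧ ∀ X : Finset V, X.Nonempty → X ≠ univ →
        l ≤ (dl v w (univ \ univ.biUnion A) X).card := by
  obtain ⟨K, hK⟩ : ∃ K, K = k / 2 := ⟨_, rfl⟩
  have hK1 : 2 * K ≤ k := by omega
  have hK2 : k ≤ 2 * K + 1 := by omega
  have hKs : 64 * s ≤ K := by omega
  obtain ⟨T, t1, t2, t3⟩ := tree_packing v w (univ : Finset E) K hV
    fun X h1 h2 => hK1.trans (hk X h1 h2)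
  -- the trees of `H` and of the rest
  obtain ⟨TH, hTH⟩ : ∃ TH : Fin (64 * s) → Finset E, TH = fun i => T (Fin.castLE hKs i) :=
    ⟨_, rfl⟩
  obtain ⟨H, hH⟩ : ∃ H, H = univ.biUnion TH := ⟨_, rfl⟩
  have hTHH : ∀ i, TH i ⊆ H := fun i => by
    rw [hH]
    exact subset_biUnion_of_mem TH (mem_univ i)
  have hTHd : ∀ i j, i ≠ j → Disjoint (TH i) (TH j) := fun i j hij => by
    rw [hTH]
    exact t2 _ _ fun h1 => hij (Fin.castLE_injective hKs h1)
  have hTHc : ∀ i, ConnOn v w (TH i) univ := fun i => by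
    rw [hTH]
    exact t3 _
  obtain ⟨ix, hix⟩ : ∃ ix : Fin (K - 64 * s) → Fin K, ∀ i, (ix i).1 = i.1 + 64 * s :=
    ⟨fun i => ⟨i.1 + 64 * s, by have := i.2; omega⟩, fun _ => rfl⟩
  obtain ⟨TR, hTR⟩ : ∃ TR : Fin (K - 64 * s) → Finset E, TR = fun i => T (ix i) := ⟨_, rfl⟩
  have hTRR : ∀ i, TR i ⊆ univ \ H := fun i e he => by
    rw [mem_sdiff]
    refine ⟨mem_univ _, fun h1 => ?_⟩
    rw [hH] at h1
    obtain ⟨j, -, hj⟩ := mem_biUnion.1 h1
    rw [hTR] at he
    rw [hTH] at hj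
    refine (disjoint_left.1 (t2 _ _ fun h2 => ?_)) he hj
    have h3 := congrArg Fin.val h2
    rw [hix, Fin.val_castLE] at h3
    have := j.2
    omega
  have hTRd : ∀ i j, i ≠ j → Disjoint (TR i) (TR j) := fun i j hij => by
    rw [hTR]
    refine t2 _ _ fun h1 => hij (Fin.ext ?_)
    have h3 := congrArg Fin.val h1
    rw [hix, hix] at h3
    omega
  have hTRc : ∀ i, ConnOn v w (TR i) univ := fun i => by
    rw [hTR]
    exact t3 _
  obtain ⟨r⟩ := id hV
  -- the critical sets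
  obtain ⟨S, hS⟩ : ∃ S : Finset (Finset V), S = univ.filter fun Y =>
      Y.Nonempty ∧ r ∉ Y ∧ (dl v w (univ \ H) Y).card < l := ⟨_, rfl⟩
  have hSm : ∀ Y, Y ∈ S ↔ Y.Nonempty ∧ r ∉ Y ∧ (dl v w (univ \ H) Y).card < l := by
    intro Y
    rw [hS, mem_filter]
    exact ⟨fun h1 => h1.2, fun h1 => ⟨mem_univ _, h1⟩⟩
  have hlam : ∀ X ∈ S, ∀ Y ∈ S, X ⊆ Y ∨ Y ⊆ X ∨ Disjoint X Y := by
    intro X hX Y hY
    obtain ⟨x1, x2, x3⟩ := (hSm X).1 hX
    obtain ⟨y1, y2, y3⟩ := (hSm Y).1 hY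
    by_contra hcon
    push Not at hcon
    obtain ⟨c1, c2, c3⟩ := hcon
    have h1 := four v w TR hTRR hTRd hTRc x2 y2
      (by rw [disjoint_iff_inter_eq_empty] at c3; exact nonempty_iff_ne_empty.2 c3)
      (sdiff_nonempty.2 c1) (sdiff_nonempty.2 c2)
    omega
  have hne : ∀ X ∈ S, X.Nonempty := fun X hX => ((hSm X).1 hX).1
  have hnu : ∀ X ∈ S, X ≠ univ := fun X hX h1 => ((hSm X).1 hX).2.1 (by rw [h1]; exact mem_univ r)
  have hu : Strong v w H (16 * s) univ := by
    intro p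
    have h1 := conn_cross_mul v w TH hTHH hTHd hTHc p
    have h2 : 1 ≤ (univ.image p).card :=
      card_pos.2 ⟨p r, mem_image_of_mem _ (mem_univ _)⟩
    obtain ⟨q, hq⟩ : ∃ q, (univ.image p).card = q + 1 := ⟨_, (Nat.sub_add_cancel h2).symm⟩
    rw [hq] at h1 ⊢
    have h3 : 16 * s * q ≤ 64 * s * q := by
      refine Nat.mul_le_mul_right _ ?_
      omega
    have h4 : 64 * s * (q + 1) = 64 * s * q + 64 * s := by ring
    have h5 : 16 * s * (q + 1) = 16 * s * q + 16 * s := by ring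
    omega
  obtain ⟨L, hL, hQ⟩ := exists_fam v w H (16 * s) hV hu S hlam hne hnu
  obtain ⟨A, a1, a2, a3, a4⟩ := L.thin v w s hL
  have hAH : univ.biUnion A ⊆ H := biUnion_subset.2 fun i _ => a1 i
  refine ⟨A, a2, a3, ?_⟩
  have key : ∀ X : Finset V, X.Nonempty → r ∉ X →
      l ≤ (dl v w (univ \ univ.biUnion A) X).card := by
    intro X hX hr
    have hXu : X ≠ univ := fun h1 => hr (by rw [h1]; exact mem_univ r)
    by_cases h1 : l ≤ (dl v w (univ \ H) X).card
    · exact h1.trans (card_le_card (dl_mono v w (sdiff_subset_sdiff (Subset.refl _) hAH) X))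
    push Not at h1
    obtain ⟨Q, q1, q2, q3, q4⟩ := hQ X ((hSm X).2 ⟨hX, hr, h1⟩)
    have h2 := bound v w hAH s TH hTHH hTHd hTHc hXu Q (fun P hP => (q1 P hP).2.2) q2 q3 q4
      (fun P hP => a4 P (q1 P hP).1 (q1 P hP).2.1)
    have h3 := hk X hX hXu
    have h4 : (dl v w univ X).card = (dl v w (univ \ H) X).card + (dl v w H X).card := by
      rw [dl_sdiff, card_sdiff_add_card_eq_card (dl_mono v w (subset_univ H) X)]
    have h5 : (dl v w univ X).card - (dl v w (univ.biUnion A) X).card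
        ≤ (dl v w (univ \ univ.biUnion A) X).card := by
      rw [dl_sdiff]
      exact le_card_sdiff _ _
    have h6 := cut_ge_of_trees v w TR hTRR hTRd hTRc hX hr
    omega
  intro X hX hXu
  by_cases hr : r ∈ X
  · have h1 := key Xᶜ (by
      rw [nonempty_iff_ne_empty]
      intro h2
      exact hXu (compl_eq_empty_iff X |>.1 h2)) (by rw [mem_compl, not_not]; exact hr)
    rwa [dl_compl] at h1
  · exact key X hX hr

end Pool.Agent.Lib.MP_21a058_co.Thin
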