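import Pool.Agent.Lib.MP_21a058_co.Thin.Rk
import Pool.Agent.Lib.MP_21a058_co.P.PackS

/-! Packing disjoint bases (letter A), from `MP21a058.pack_rk`. -/

set_option linter.unusedSectionVars false
set_option linter.unusedVariables false

namespace Pool.Agent.Lib.MP_21a058_co.Thin

open Finset
open scoped Classical

theorem RankFn.toRk {α : Type} (M : RankFn α) : MP21a058.Rk M.r :=
  ⟨M.emp, M.mono, fun s e => M.unit e s, M.sub⟩

/-- Base packing. -/
theorem packing {α : Type} (M : RankFn α) (G : Finset α) (t : ℕ)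
    (h : ∀ C ⊆ G, t * M.r G ≤ t * M.r (G \ C) + C.card) :
    ∃ B : Fin t → Finset α, (∀ i, B i ⊆ G) ∧ (∀ i, M.r (B i) = M.r G) ∧
      (∀ i, (B i).card = M.r G) ∧ ∀ i j, i ≠ j → Disjoint (B i) (B j) := by
  obtain ⟨T, h1, h2, h3⟩ := MP21a058.pack_rk (t := t) M.toRk G (M.r G) (fun J hJ => M.mono _ _ hJ) (fun J hJ => by
    have h4 := h (G \ J) sdiff_subset
    rwa [Finset.sdiff_sdiff_eq_self hJ] at h4)
  exact ⟨T, h1, fun i => (h3 i).2, fun i => (h3 i).1, h2⟩

end Pool.Agent.Lib.MP_21a058_co.Thin
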