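import Pool.Agent.Lib.MP_21a058_co.Thin.Defs

/-! Strong pieces of a vertex set (MP_21a058_co, thin trees; helper39). Colourings `V → ℕ` inside,
the statement `pieces` of the skeleton at the end. -/

set_option linter.unusedSectionVars false
set_option linter.unusedVariables false

namespace Pool.Agent.Lib.MP_21a058_co.Thin

open Finset

section pieceAux

variable {V E : Type} [DecidableEq V] (v w : E → V)

/-- The edges of `H` inside `X` whose ends have different colours. -/
def crs (H : Finset E) (X : Finset V) (c : V → ℕ) : Finset E :=
  H.filter fun e => v e ∈ X ∧ w e ∈ X ∧ c (v e) ≠ c (w e)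

/-- `X` is strong: every colouring of `X` with `p` colours has at least `t (p - 1)` edges of `H`
inside `X` with two colours. -/
def StrongN (H : Finset E) (t : ℕ) (X : Finset V) : Prop :=
  ∀ c : V → ℕ, t * (X.image c).card ≤ (crs v w H X c).card + t

theorem exists_fresh (Y : Finset V) (c : V → ℕ) : ∃ N, ∀ x ∈ Y, c x < N := by
  refine ⟨Y.sup c + 1, fun x hx => ?_⟩
  exact Nat.lt_succ_of_le (le_sup (f := c) hx)

/-- A colouring of the best value with the fewest colours. -/
theorem exists_best (H : Finset E) (t : ℕ) (Y : Finset V) :
    ∃ c : V → ℕ, ∀ c' : V → ℕ,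
      (t * (Y.image c').card + (crs v w H Y c).card ≤
        t * (Y.image c).card + (crs v w H Y c').card) ∧
      (t * (Y.image c').card + (crs v w H Y c).card =
        t * (Y.image c).card + (crs v w H Y c').card →
          (Y.image c).card ≤ (Y.image c').card) := by
  classical
  let F : (V → ℕ) → ℕ := fun c =>
    (t * Y.card - t * (Y.image c).card + (crs v w H Y c).card) * (Y.card + 1) + (Y.image c).card
  obtain ⟨c, hc⟩ : ∃ c, ∀ c', F c ≤ F c' := by
    have hne : (Set.range F).Nonempty := ⟨F fun _ => 0, Set.mem_range_self _⟩
    obtain ⟨c, hc⟩ := Nat.sInf_mem hne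
    exact ⟨c, fun c' => by rw [hc]; exact Nat.sInf_le (Set.mem_range_self c')⟩
  refine ⟨c, fun c' => ?_⟩
  have h := hc c'
  have hb : ∀ d : V → ℕ, (Y.image d).card ≤ Y.card := fun d => card_image_le
  have h1 := Nat.mul_le_mul_left t (hb c)
  have h2 := Nat.mul_le_mul_left t (hb c')
  simp only [F] at h
  obtain ⟨x, hx⟩ := Nat.exists_eq_add_of_le h1
  obtain ⟨x', hx'⟩ := Nat.exists_eq_add_of_le h2
  have e1 : t * Y.card - t * (Y.image c).card = x := by omega
  have e2 : t * Y.card - t * (Y.image c').card = x' := by omega
  rw [e1, e2] at h
  have h3 := hb c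
  have h4 := hb c'
  have h5 : x + (crs v w H Y c).card ≤ x' + (crs v w H Y c').card := by
    by_contra hlt
    push Not at hlt
    have : (x' + (crs v w H Y c').card + 1) * (Y.card + 1) ≤
        (x + (crs v w H Y c).card) * (Y.card + 1) := Nat.mul_le_mul_right _ hlt
    rw [Nat.add_mul _ 1] at this
    omega
  constructor
  · omega
  · intro he
    have h6 : x + (crs v w H Y c).card = x' + (crs v w H Y c').card := by omega
    rw [h6] at h
    omega

/-- **Strong pieces.** -/
theorem exists_pieces (H : Finset E) (t : ℕ) {Y : Finset V} (hY : Y.Nonempty) :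
    ∃ c : V → ℕ,
      (∀ i ∈ Y.image c, StrongN v w H t (Y.filter fun x => c x = i)) ∧
      (∀ X ⊆ Y, StrongN v w H t X → ∀ x ∈ X, ∀ y ∈ X, c x = c y) ∧
      (crs v w H Y c).card + t ≤ t * (Y.image c).card := by
  classical
  obtain ⟨c, hc⟩ := exists_best v w H t Y
  obtain ⟨N, hN⟩ := exists_fresh Y c
  refine ⟨c, ?_, ?_, ?_⟩
  · -- refine a class
    intro i hi d
    set W := Y.filter fun x => c x = i with hW
    have hWY : W ⊆ Y := filter_subset _ _
    let c' : V → ℕ := fun x => if c x = i then N + d x else c x
    have him : (Y.image c').card + 1 = (Y.image c).card + (W.image d).card := by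
      have e1 : Y.image c' = ((Y.image c).erase i) ∪ (W.image fun x => N + d x) := by
        ext j
        simp only [mem_union, mem_erase, mem_image, hW, mem_filter]
        constructor
        · rintro ⟨x, hx, rfl⟩
          by_cases h : c x = i
          · right
            exact ⟨x, ⟨hx, h⟩, by simp only [c']; rw [if_pos h]⟩
          · left
            refine ⟨?_, x, hx, ?_⟩
            · simp only [c']
              rw [if_neg h]
              exact h
            · simp only [c']
              rw [if_neg h]
        · rintro (⟨hji, x, hx, rfl⟩ | ⟨x, ⟨hx, hxi⟩, rfl⟩)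
          · exact ⟨x, hx, by simp only [c']; rw [if_neg hji]⟩
          · exact ⟨x, hx, by simp only [c']; rw [if_pos hxi]⟩
      have e2 : Disjoint ((Y.image c).erase i) (W.image fun x => N + d x) := by
        rw [disjoint_left]
        intro j hj hj'
        obtain ⟨x, hx, rfl⟩ := mem_image.1 (mem_of_mem_erase hj)
        obtain ⟨y, -, hy⟩ := mem_image.1 hj'
        have := hN x hx
        omega
      have e3 : (W.image fun x => N + d x).card = (W.image d).card := by
        have : (W.image fun x => N + d x) = (W.image d).image fun j => N + j := by
          rw [image_image]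
          rfl
        rw [this]
        exact card_image_of_injective _ fun a b h => Nat.add_left_cancel h
      have e4 : ((Y.image c).erase i).card + 1 = (Y.image c).card := card_erase_add_one hi
      rw [e1, card_union_of_disjoint e2, e3]
      omega
    have hcr : (crs v w H Y c').card ≤ (crs v w H Y c).card + (crs v w H W d).card := by
      refine (card_le_card ?_).trans (card_union_le _ _)
      intro e he
      simp only [crs, mem_filter, mem_union] at he ⊢
      obtain ⟨h1, h2, h3, h4⟩ := he
      by_cases hce : c (v e) = c (w e)
      · right
        by_cases hi1 : c (v e) = i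
        · have hi2 : c (w e) = i := by rw [← hce]; exact hi1
          refine ⟨h1, ?_, ?_, ?_⟩
          · exact mem_filter.2 ⟨h2, hi1⟩
          · exact mem_filter.2 ⟨h3, hi2⟩
          · intro hd
            apply h4
            simp only [c']
            rw [if_pos hi1, if_pos hi2, hd]
        · exfalso
          apply h4
          have hi2 : c (w e) ≠ i := by rw [← hce]; exact hi1
          simp only [c']
          rw [if_neg hi1, if_neg hi2, hce]
      · left
        exact ⟨h1, h2, h3, hce⟩
    have h := (hc c').1
    have e5 : t * (Y.image c').card + t = t * (Y.image c).card + t * (W.image d).card := by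
      have := congrArg (fun z => t * z) him
      simp only [Nat.mul_add, Nat.mul_one] at this
      exact this
    omega
  · -- merge the classes met by a strong set
    intro X hX hs x hx y hy
    by_contra hxy
    let c' : V → ℕ := fun z => if c z ∈ X.image c then N else c z
    have hj : 2 ≤ (X.image c).card := by
      have : ({c x, c y} : Finset ℕ) ⊆ X.image c := by
        intro j hj
        rw [mem_insert, mem_singleton] at hj
        rcases hj with rfl | rfl
        · exact mem_image_of_mem c hx
        · exact mem_image_of_mem c hy
      have h2 := card_le_card this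
      rw [card_pair hxy] at h2
      exact h2
    have hsub : X.image c ⊆ Y.image c := image_subset_image hX
    have him : (Y.image c').card + (X.image c).card = (Y.image c).card + 1 := by
      have e1 : Y.image c' = insert N (Y.image c \ X.image c) := by
        ext j
        rw [mem_image, mem_insert, mem_sdiff, mem_image]
        constructor
        · rintro ⟨z, hz, rfl⟩
          by_cases h : c z ∈ X.image c
          · left
            simp only [c']
            rw [if_pos h]
          · right
            simp only [c']
            rw [if_neg h]
            exact ⟨⟨z, hz, rfl⟩, h⟩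
        · rintro (rfl | ⟨⟨z, hz, rfl⟩, hj⟩)
          · refine ⟨x, hX hx, ?_⟩
            simp only [c']
            rw [if_pos (mem_image_of_mem c hx)]
          · refine ⟨z, hz, ?_⟩
            simp only [c']
            rw [if_neg hj]
      have e2 : N ∉ Y.image c \ X.image c := by
        intro h
        obtain ⟨z, hz, hzN⟩ := mem_image.1 (mem_sdiff.1 h).1
        have := hN z hz
        omega
      rw [e1, card_insert_of_notMem e2]
      have := card_sdiff_add_card_eq_card hsub
      omega
    have hcr : (crs v w H Y c').card + (crs v w H X c).card ≤ (crs v w H Y c).card := by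
      have e1 : Disjoint (crs v w H Y c') (crs v w H X c) := by
        rw [disjoint_left]
        intro e he he'
        simp only [crs, mem_filter] at he he'
        apply he.2.2.2
        simp only [c']
        rw [if_pos (mem_image_of_mem c he'.2.1), if_pos (mem_image_of_mem c he'.2.2.1)]
      rw [← card_union_of_disjoint e1]
      apply card_le_card
      intro e he
      rw [mem_union] at he
      rcases he with he | he
      · simp only [crs, mem_filter] at he ⊢
        refine ⟨he.1, he.2.1, he.2.2.1, fun h => he.2.2.2 ?_⟩
        simp only [c']
        rw [h]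
      · simp only [crs, mem_filter] at he ⊢
        exact ⟨he.1, hX he.2.1, hX he.2.2.1, he.2.2.2⟩
    have h1 := hs c
    have h := hc c'
    have e5 : t * (Y.image c').card + t * (X.image c).card = t * (Y.image c).card + t := by
      have := congrArg (fun z => t * z) him
      simp only [Nat.mul_add, Nat.mul_one] at this
      exact this
    have h2 := h.1
    have h3 : (Y.image c).card ≤ (Y.image c').card := h.2 (by omega)
    omega
  · -- compare with one colour
    have h := (hc fun _ => 0).1
    have e1 : Y.image (fun _ => (0 : ℕ)) = {0} := by
      ext j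
      simp only [mem_image, mem_singleton]
      constructor
      · rintro ⟨_, _, rfl⟩
        rfl
      · rintro rfl
        obtain ⟨x, hx⟩ := hY
        exact ⟨x, hx, rfl⟩
    have e2 : crs v w H Y (fun _ => (0 : ℕ)) = ∅ := by
      rw [crs, filter_eq_empty_iff]
      rintro e - ⟨_, _, h⟩
      exact h rfl
    rw [e1, e2, card_singleton, card_empty] at h
    omega

end pieceAux

open scoped Classical

variable {V E : Type} [Fintype V]

theorem strongN_iff (v w : E → V) (H : Finset E) (t : ℕ) (X : Finset V) :
    StrongN v w H t X ↔ Strong v w H t X := by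
  constructor
  · intro h p
    have h1 := h fun x => (Fintype.equivFin V (p x)).val
    have e1 : (X.image fun x => (Fintype.equivFin V (p x)).val).card = (X.image p).card := by
      have : (X.image fun x => (Fintype.equivFin V (p x)).val) =
          (X.image p).image fun y => (Fintype.equivFin V y).val := by
        rw [image_image]
        rfl
      rw [this]
      exact card_image_of_injective _ fun a b hab =>
        (Fintype.equivFin V).injective (Fin.val_injective hab)
    have e2 : (crs v w H X fun x => (Fintype.equivFin V (p x)).val).card = cr v w H p X := by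
      unfold cr crs
      congr 1
      apply filter_congr
      intro e _
      refine and_congr_right fun _ => and_congr_right fun _ => not_congr ?_
      exact ⟨fun hab => (Fintype.equivFin V).injective (Fin.val_injective hab),
        fun hab => congrArg (fun y => (Fintype.equivFin V y).val) hab⟩
    rw [e1, e2] at h1
    exact h1
  · intro h c
    by_cases hV : Nonempty V
    · let q : V → V := fun x => Classical.epsilon fun y => c y = c x
      have hq : ∀ x, c (q x) = c x := fun x =>
        Classical.epsilon_spec (p := fun y => c y = c x) ⟨x, rfl⟩
      have hq2 : ∀ x y, q x = q y ↔ c x = c y := by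
        intro x y
        constructor
        · intro hxy
          rw [← hq x, ← hq y, hxy]
        · intro hxy
          simp only [q]
          rw [hxy]
      have h1 := h q
      have e1 : (X.image q).card = (X.image c).card := by
        have : X.image c = (X.image q).image c := by
          rw [image_image]
          apply image_congr
          intro x _
          exact (hq x).symm
        have hinj : Set.InjOn c ((X.image q : Finset V) : Set V) := by
          intro a ha b hb hab
          obtain ⟨x, -, rfl⟩ := mem_image.1 (mem_coe.1 ha)
          obtain ⟨y, -, rfl⟩ := mem_image.1 (mem_coe.1 hb)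
          rw [hq2]
          rw [hq x, hq y] at hab
          exact hab
        rw [this, card_image_of_injOn hinj]
      have e2 : (crs v w H X c).card = cr v w H q X := by
        unfold cr crs
        congr 1
        apply filter_congr
        intro e _
        refine and_congr_right fun _ => and_congr_right fun _ => not_congr ?_
        exact (hq2 _ _).symm
      rw [e1] at h1
      rw [e2]
      exact h1
    · have : X = ∅ := by
        rw [eq_empty_iff_forall_notMem]
        intro x _
        exact hV ⟨x⟩
      rw [this, image_empty, card_empty]
      omega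

/-- Classes of a map on `Y` maximising `t * classes - crossing edges`, with fewest classes. -/
theorem pieces (v w : E → V) (H : Finset E) (t : ℕ) {Y : Finset V} (hY : Y.Nonempty) :
    ∃ Q : Finset (Finset V), (∀ P ∈ Q, P.Nonempty ∧ P ⊆ Y ∧ Strong v w H t P) ∧
      (∀ P ∈ Q, ∀ P' ∈ Q, P ≠ P' → Disjoint P P') ∧ (∀ x ∈ Y, ∃ P ∈ Q, x ∈ P) ∧
      (∀ X ⊆ Y, X.Nonempty → Strong v w H t X → ∃ P ∈ Q, X ⊆ P) ∧
      (H.filter (fun e => v e ∈ Y ∧ w e ∈ Y ∧ ∀ P ∈ Q, ¬ (v e ∈ P ∧ w e ∈ P))).card + t ≤
        t * Q.card := by
  obtain ⟨c, h1, h2, h3⟩ := exists_pieces v w H t hY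
  have hmem : ∀ x ∈ Y, (Y.filter fun z => c z = c x) ∈
      (Y.image c).image fun i => Y.filter fun x => c x = i := fun x hx =>
    mem_image_of_mem _ (mem_image_of_mem c hx)
  refine ⟨(Y.image c).image fun i => Y.filter fun x => c x = i, ?_, ?_, ?_, ?_, ?_⟩
  · intro P hP
    obtain ⟨i, hi, rfl⟩ := mem_image.1 hP
    refine ⟨?_, filter_subset _ _, (strongN_iff v w H t _).1 (h1 i hi)⟩
    obtain ⟨x, hx, rfl⟩ := mem_image.1 hi
    exact ⟨x, mem_filter.2 ⟨hx, rfl⟩⟩
  · intro P hP P' hP' hne
    obtain ⟨i, -, rfl⟩ := mem_image.1 hP
    obtain ⟨j, -, rfl⟩ := mem_image.1 hP'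
    rw [disjoint_left]
    intro x hx hx'
    apply hne
    rw [← (mem_filter.1 hx).2, ← (mem_filter.1 hx').2]
  · intro x hx
    exact ⟨_, hmem x hx, mem_filter.2 ⟨hx, rfl⟩⟩
  · intro X hX ⟨x, hx⟩ hs
    refine ⟨_, hmem x (hX hx), ?_⟩
    intro y hy
    exact mem_filter.2 ⟨hX hy, h2 X hX ((strongN_iff v w H t X).2 hs) y hy x hx⟩
  · have e1 : ((Y.image c).image fun i => Y.filter fun x => c x = i).card = (Y.image c).card := by
      apply card_image_of_injOn
      intro i hi j _ hij
      obtain ⟨x, hx, rfl⟩ := mem_image.1 (mem_coe.1 hi)
      have : x ∈ Y.filter fun z => c z = c x := mem_filter.2 ⟨hx, rfl⟩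
      simp only at hij
      rw [hij] at this
      exact (mem_filter.1 this).2
    have e2 : H.filter (fun e => v e ∈ Y ∧ w e ∈ Y ∧
        ∀ P ∈ (Y.image c).image fun i => Y.filter fun x => c x = i, ¬ (v e ∈ P ∧ w e ∈ P)) =
        crs v w H Y c := by
      unfold crs
      apply filter_congr
      intro e _
      refine and_congr_right fun hv => and_congr_right fun hw => ?_
      constructor
      · intro hh he
        refine hh _ (hmem (v e) hv) ⟨mem_filter.2 ⟨hv, rfl⟩, mem_filter.2 ⟨hw, he.symm⟩⟩
      · rintro hne P hP ⟨hvP, hwP⟩
        obtain ⟨i, -, rfl⟩ := mem_image.1 hP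
        apply hne
        rw [(mem_filter.1 hvP).2, (mem_filter.1 hwP).2]
    rw [e1, e2]
    exact h3

end Pool.Agent.Lib.MP_21a058_co.Thin
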