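import Mathlib

/-! Submodular rank functions on finite sets and the matroid intersection theorem. -/

set_option linter.unusedSectionVars false
set_option linter.unusedVariables false

namespace Pool.Agent.Lib.MP_21a058_co.Thin

open Finset
open scoped Classical

/-- A matroid rank function on the finite subsets of `α`. -/
structure RankFn (α : Type) where
  r : Finset α → ℕ
  emp : r ∅ = 0
  mono : ∀ A B : Finset α, A ⊆ B → r A ≤ r B
  unit : ∀ (e : α) (A : Finset α), r (insert e A) ≤ r A + 1
  sub : ∀ A B : Finset α, r (A ∪ B) + r (A ∩ B) ≤ r A + r B

theorem RankFn.le_card {α : Type} (M : RankFn α) (A : Finset α) : M.r A ≤ A.card := by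
  induction A using Finset.induction_on with
  | empty => simp [M.emp]
  | insert e A he ih =>
    rw [card_insert_of_notMem he]
    exact (M.unit e A).trans (by omega)

/-- contraction of one element -/
noncomputable def RankFn.contr {α : Type} (M : RankFn α) (e : α) (he : M.r {e} = 1) :
    RankFn α where
  r := fun A => M.r (insert e A) - 1
  emp := by simp [he]
  mono := by
    intro A B h
    have := M.mono _ _ (insert_subset_insert e h)
    omega
  unit := by
    intro x A
    have h1 := M.unit x (insert e A)
    have hc : insert x (insert e A) = insert e (insert x A) := by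
      ext y; simp only [mem_insert]; tauto
    rw [hc] at h1
    have h2 : 1 ≤ M.r (insert e A) := by
      rw [← he]
      exact M.mono _ _ (by simp)
    omega
  sub := by
    intro A B
    have h1 := M.sub (insert e A) (insert e B)
    have e1 : insert e A ∪ insert e B = insert e (A ∪ B) := by
      ext x; simp only [mem_union, mem_insert]; tauto
    have e2 : insert e A ∩ insert e B = insert e (A ∩ B) := by
      ext x; simp only [mem_inter, mem_insert]; tauto
    rw [e1, e2] at h1
    have h2 : ∀ C : Finset α, 1 ≤ M.r (insert e C) := by
      intro C
      rw [← he]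
      exact M.mono _ _ (by simp)
    have := h2 A
    have := h2 B
    have := h2 (A ∪ B)
    have := h2 (A ∩ B)
    omega

theorem RankFn.zero_of_loops {α : Type} (M : RankFn α) (A : Finset α)
    (h : ∀ e ∈ A, M.r {e} = 0) : M.r A = 0 := by
  induction A using Finset.induction_on with
  | empty => exact M.emp
  | insert e A he ih =>
    have h1 := M.sub {e} A
    rw [← insert_eq] at h1
    have h2 := h e (mem_insert_self _ _)
    have h3 := ih (fun x hx => h x (mem_insert_of_mem hx))
    omega

/-- Matroid intersection (Edmonds), existence form. -/
theorem inter {α : Type} (n : ℕ) : ∀ (G : Finset α), G.card = n → ∀ (M N : RankFn α) (k : ℕ),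
    (∀ J ⊆ G, k ≤ M.r J + N.r (G \ J)) →
    ∃ I ⊆ G, I.card = k ∧ M.r I = k ∧ N.r I = k := by
  induction n with
  | zero =>
    intro G hG M N k h
    have hG0 : G = ∅ := card_eq_zero.mp hG
    subst hG0
    have := h ∅ (by simp)
    simp only [M.emp, sdiff_self, bot_eq_empty, N.emp] at this
    have hk : k = 0 := by omega
    subst hk
    exact ⟨∅, by simp, by simp, M.emp, N.emp⟩
  | succ n ih =>
    intro G hG M N k h
    rcases Nat.eq_zero_or_pos k with hk | hk
    · subst hk
      exact ⟨∅, by simp, by simp, M.emp, N.emp⟩
    -- an element that is a loop in neither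
    have hex : ∃ e ∈ G, M.r {e} = 1 ∧ N.r {e} = 1 := by
      by_contra hcon
      push Not at hcon
      have h1 := h (G.filter (fun e => M.r {e} = 0)) (filter_subset _ _)
      have h2 : M.r (G.filter (fun e => M.r {e} = 0)) = 0 :=
        M.zero_of_loops _ (fun e he => (mem_filter.mp he).2)
      have h3 : N.r (G \ G.filter (fun e => M.r {e} = 0)) = 0 := by
        apply N.zero_of_loops
        intro e he
        rw [mem_sdiff, mem_filter] at he
        have h4 : M.r {e} ≠ 0 := fun h5 => he.2 ⟨he.1, h5⟩
        have h6 := M.le_card {e}
        have h7 := N.le_card {e}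
        rw [card_singleton] at h6 h7
        have h8 := hcon e he.1 (by omega)
        omega
      omega
    obtain ⟨e, heG, heM, heN⟩ := hex
    have hcard : (G.erase e).card = n := by rw [card_erase_of_mem heG, hG]; rfl
    by_cases hA : ∀ J ⊆ G.erase e, k ≤ M.r J + N.r (G.erase e \ J)
    · obtain ⟨I, hI, h1, h2, h3⟩ := ih _ hcard M N k hA
      exact ⟨I, hI.trans (erase_subset _ _), h1, h2, h3⟩
    · push Not at hA
      obtain ⟨J, hJ, hJk⟩ := hA
      by_cases hB : ∀ J ⊆ G.erase e,
          k - 1 ≤ (M.contr e heM).r J + (N.contr e heN).r (G.erase e \ J)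
      · obtain ⟨I, hI, h1, h2, h3⟩ := ih _ hcard _ _ (k - 1) hB
        have heI : e ∉ I := fun hh => (notMem_erase e G) (hI hh)
        have hM1 : 1 ≤ M.r (insert e I) := by
          rw [← heM]; exact M.mono _ _ (by simp)
        have hN1 : 1 ≤ N.r (insert e I) := by
          rw [← heN]; exact N.mono _ _ (by simp)
        simp only [RankFn.contr] at h2 h3
        refine ⟨insert e I, ?_, ?_, by omega, by omega⟩
        · intro x hx
          rcases mem_insert.mp hx with rfl | hx
          · exact heG
          · exact (erase_subset _ _) (hI hx)
        · rw [card_insert_of_notMem heI]; omega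
      · push Not at hB
        obtain ⟨J', hJ', hJk'⟩ := hB
        simp only [RankFn.contr] at hJk'
        exfalso
        have heJ : e ∉ J := fun hh => (notMem_erase e G) (hJ hh)
        have heJ' : e ∉ J' := fun hh => (notMem_erase e G) (hJ' hh)
        have hM1 : 1 ≤ M.r (insert e J') := by
          rw [← heM]; exact M.mono _ _ (by simp)
        have hN1 : 1 ≤ N.r (insert e (G.erase e \ J')) := by
          rw [← heN]; exact N.mono _ _ (by simp)
        have s1 := M.sub J (insert e J')
        have s2 := N.sub (G.erase e \ J) (insert e (G.erase e \ J'))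
        have e1 : J ∪ insert e J' = insert e (J ∪ J') := by
          ext x; simp only [mem_union, mem_insert]; tauto
        have e2 : J ∩ insert e J' = J ∩ J' := by
          ext x; simp only [mem_inter, mem_insert]
          constructor
          · rintro ⟨hx, rfl | hx'⟩
            · exact absurd hx heJ
            · exact ⟨hx, hx'⟩
          · rintro ⟨hx, hx'⟩; exact ⟨hx, Or.inr hx'⟩
        have e3 : (G.erase e \ J) ∪ insert e (G.erase e \ J') = G \ (J ∩ J') := by
          ext x; simp only [mem_union, mem_sdiff, mem_erase, mem_insert, mem_inter]
          by_cases hx : x = e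
          · subst hx; simp [heG, heJ]
          · simp only [hx]; tauto
        have e4 : (G.erase e \ J) ∩ insert e (G.erase e \ J') = G \ insert e (J ∪ J') := by
          ext x; simp only [mem_union, mem_sdiff, mem_erase, mem_insert, mem_inter]
          by_cases hx : x = e
          · subst hx; simp
          · simp only [hx]; tauto
        rw [e1, e2] at s1
        rw [e3, e4] at s2
        have t1 := h (insert e (J ∪ J')) (by
          intro x hx
          rcases mem_insert.mp hx with rfl | hx
          · exact heG
          · rcases mem_union.mp hx with hx | hx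
            · exact (erase_subset _ _) (hJ hx)
            · exact (erase_subset _ _) (hJ' hx))
        have t2 := h (J ∩ J') (by
          intro x hx
          exact (erase_subset _ _) (hJ (mem_inter.mp hx).1))
        omega

/-- Matroid intersection. -/
theorem intersection {α : Type} (G : Finset α) (M N : RankFn α) (k : ℕ)
    (h : ∀ J ⊆ G, k ≤ M.r J + N.r (G \ J)) :
    ∃ I ⊆ G, I.card = k ∧ M.r I = k ∧ N.r I = k :=
  inter G.card G rfl M N k h

end Pool.Agent.Lib.MP_21a058_co.Thin
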