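import Pool.Agent.Lib.MP_21a058_co.Thin.Two
import Pool.Agent.Lib.MP_21a058_co.Thin.Tree
import Pool.Agent.Lib.MP_21a058_co.Thin.Lam
import Pool.Agent.Lib.MP_21a058_co.Thin.Bnd

/-! Thin classes for an arbitrary laminar family: `64 s` disjoint connected classes contain
`s` disjoint connected classes which together have at most half of the edges of every cut of
the family. -/

set_option linter.unusedSectionVars false
set_option linter.unusedVariables false

namespace Pool.Agent.Lib.MP_21a058_co.Thin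

open Finset
open scoped Classical

variable {V E : Type} [Fintype V]

/-- `64 s` disjoint connected classes make the whole set `16 s`-strong. -/
theorem strong_of_classes (v w : E → V) (hV : Nonempty V) (s : ℕ) {H : Finset E}
    (T : Fin (64 * s) → Finset E) (hTH : ∀ i, T i ⊆ H)
    (hd : ∀ i j, i ≠ j → Disjoint (T i) (T j)) (hT : ∀ i, ConnOn v w (T i) univ) :
    Strong v w H (16 * s) univ := by
  intro p
  have h1 := conn_cross_mul v w T hTH hd hT p
  obtain ⟨r⟩ := id hV
  have h2 : 1 ≤ (univ.image p).card :=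
    card_pos.2 ⟨p r, mem_image_of_mem _ (mem_univ _)⟩
  obtain ⟨q, hq⟩ : ∃ q, (univ.image p).card = q + 1 := ⟨_, (Nat.sub_add_cancel h2).symm⟩
  rw [hq] at h1 ⊢
  have h3 : 16 * s * q ≤ 64 * s * q := Nat.mul_le_mul_right _ (by omega)
  have h4 : 64 * s * (q + 1) = 64 * s * q + 64 * s := by ring
  have h5 : 16 * s * (q + 1) = 16 * s * q + 16 * s := by ring
  omega

/-- `S` is an arbitrary laminar family of nonempty proper sets and `H` contains `64 s`
disjoint connected classes; then `H` contains `s` disjoint connected classes whose union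
has at most half of the edges of `H` in every cut of the family. -/
theorem thin_lam (v w : E → V) (hV : Nonempty V) (s : ℕ) {H : Finset E}
    (T : Fin (64 * s) → Finset E) (hTH : ∀ i, T i ⊆ H)
    (hd : ∀ i j, i ≠ j → Disjoint (T i) (T j)) (hT : ∀ i, ConnOn v w (T i) univ)
    (S : Finset (Finset V)) (hS : ∀ X ∈ S, ∀ Y ∈ S, X ⊆ Y ∨ Y ⊆ X ∨ Disjoint X Y)
    (hne : ∀ X ∈ S, X.Nonempty) (hnu : ∀ X ∈ S, X ≠ univ) :
    ∃ A : Fin s → Finset E, (∀ i, A i ⊆ H) ∧ (∀ i j, i ≠ j → Disjoint (A i) (A j)) ∧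
      (∀ i, ConnOn v w (A i) univ) ∧
      ∀ Y ∈ S, 2 * (dl v w (univ.biUnion A) Y).card ≤ (dl v w H Y).card := by
  obtain ⟨L, hL, hQ⟩ := exists_fam v w H (16 * s) hV
    (strong_of_classes v w hV s T hTH hd hT) S hS hne hnu
  obtain ⟨A, a1, a2, a3, a4⟩ := L.thin v w s hL
  refine ⟨A, a1, a2, a3, fun Y hY => ?_⟩
  obtain ⟨Q, q1, q2, q3, q4⟩ := hQ Y hY
  exact bound v w (biUnion_subset.2 fun i _ => a1 i) s T hTH hd hT (hnu Y hY) Q
    (fun P hP => (q1 P hP).2.2) q2 q3 q4 (fun P hP => a4 P (q1 P hP).1 (q1 P hP).2.1)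

end Pool.Agent.Lib.MP_21a058_co.Thin
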