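import Pool.Agent.Lib.MP_21a058_co.Thin.TwoS
import Pool.Agent.Lib.MP_21a058_co.Thin.Str
import Pool.Agent.Lib.MP_21a058_co.P.PackS

/-! Thin trees, (G2): `s` disjoint thin trees. -/

set_option linter.unusedSectionVars false
set_option linter.unusedVariables false

namespace Pool.Agent.Lib.MP_21a058_co.Thin

open Finset
open scoped Classical

variable {V E : Type} [Fintype V]

theorem card_dl_biUnion {ι : Type} (v w : E → V) (s : Finset ι) (B : ι → Finset E)
    (hd : ∀ i ∈ s, ∀ j ∈ s, i ≠ j → Disjoint (B i) (B j)) (W : Finset V) :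
    (dl v w (s.biUnion B) W).card = ∑ i ∈ s, (dl v w (B i) W).card := by
  rw [card_dl_eq, card_D_biUnion v w s B hd, card_D_biUnion w v s B hd, ← sum_add_distrib]
  exact sum_congr rfl fun i _ => (card_dl_eq v w (B i) W).symm

theorem dl_sub {v w : E → V} {A B : Finset E} (h : A ⊆ B) (W : Finset V) :
    dl v w A W ⊆ dl v w B W := by
  intro e he
  simp only [dl, mem_filter] at he ⊢
  exact ⟨h he.1, he.2⟩

/-- `s` disjoint thin trees -/
theorem Fam.thin (L : Fam V) (v w : E → V) {H : Finset E} (s : ℕ)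
    (hs : ∀ Y ∈ L.F, Strong v w H (16 * s) Y) :
    ∃ A : Fin s → Finset E, (∀ i, A i ⊆ H) ∧ (∀ i j, i ≠ j → Disjoint (A i) (A j)) ∧
      (∀ i, ConnOn v w (A i) univ) ∧ ∀ W ∈ L.F, W ≠ univ →
        4 * (dl v w (univ.biUnion A) W).card ≤ (dl v w H W).card + 16 * s := by
  rcases Nat.eq_zero_or_pos s with h0 | hpos
  · subst h0
    refine ⟨fun i => ∅, fun i => i.elim0, fun i => i.elim0, fun i => i.elim0, fun W _ _ => ?_⟩
    have h1 : (univ : Finset (Fin 0)).biUnion (fun _ => (∅ : Finset E)) = ∅ := by simp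
    rw [h1]
    simp [dl]
  obtain ⟨B0, hB1, hB2, hB3, hB4⟩ : ∃ B : Fin (16 * s) → Finset E, (∀ i, B i ⊆ H) ∧
      (∀ i, L.R v w (B i) = L.R v w H) ∧ (∀ i, (B i).card = L.R v w H) ∧
      ∀ i j, i ≠ j → Disjoint (B i) (B j) := by
    obtain ⟨T, h1, h2, h3⟩ := MP21a058.pack_rk (t := 16 * s) (L.M v w).toRk H (L.R v w H)
      (fun J hJ => (L.M v w).mono _ _ hJ) (fun J hJ => by
        have h4 := L.strength v w hs (H \ J) sdiff_subset
        rwa [Finset.sdiff_sdiff_eq_self hJ] at h4)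
    exact ⟨T, h1, fun i => (h3 i).2, fun i => (h3 i).1, h2⟩
  have hcard : Fintype.card (Fin s × (Fin 4 × Fin 4)) = Fintype.card (Fin (16 * s)) := by
    simp only [Fintype.card_prod, Fintype.card_fin]
    ring
  let φ : Fin s × (Fin 4 × Fin 4) ≃ Fin (16 * s) := Fintype.equivOfCardEq hcard
  let B : Fin s → Fin 4 × Fin 4 → Finset E := fun i p => B0 (φ (i, p))
  have hBd : ∀ i p j q, (i, p) ≠ (j, q) → Disjoint (B i p) (B j q) := by
    intro i p j q h
    exact hB4 _ _ (fun h1 => h (φ.injective h1))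
  have h2 : ∀ i : Fin s, ∃ A ⊆ univ.biUnion (B i), L.R v w A = L.R v w H ∧
      ∀ W ∈ L.F, W ≠ univ →
        4 * (dl v w A W).card ≤ (dl v w (univ.biUnion (B i)) W).card + 15 := by
    intro i
    refine L.two_sided v w (B i) ?_ (fun p => hB1 _) (fun p => hB2 _) (fun p => hB3 _)
    intro p q hpq
    exact hBd i p i q (fun h => hpq (Prod.ext_iff.1 h).2)
  choose A hA1 hA2 hA3 using h2
  have hUd : ∀ i j : Fin s, i ≠ j → Disjoint (univ.biUnion (B i)) (univ.biUnion (B j)) := by
    intro i j hij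
    rw [disjoint_biUnion_left]
    intro p _
    rw [disjoint_biUnion_right]
    intro q _
    exact hBd i p j q (fun h => hij (Prod.ext_iff.1 h).1)
  have hUH : ∀ i : Fin s, univ.biUnion (B i) ⊆ H := by
    intro i
    exact biUnion_subset.2 fun p _ => hB1 _
  have hAH : ∀ i, A i ⊆ H := fun i => (hA1 i).trans (hUH i)
  have hAd : ∀ i j, i ≠ j → Disjoint (A i) (A j) := fun i j hij =>
    disjoint_of_subset_left (hA1 i) (disjoint_of_subset_right (hA1 j) (hUd i j hij))
  refine ⟨A, hAH, hAd, ?_, ?_⟩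
  · intro i
    exact L.base_conn v w (hAH i) (hA2 i)
      (fun Y hY => strong_conn v w (by omega) (hs Y hY))
  · intro W hW hWu
    rw [card_dl_biUnion v w univ A (fun i _ j _ h => hAd i j h)]
    have h5 : ∑ i : Fin s, (dl v w (univ.biUnion (B i)) W).card ≤ (dl v w H W).card := by
      rw [← card_dl_biUnion v w univ (fun i => univ.biUnion (B i)) (fun i _ j _ h => hUd i j h)]
      exact card_le_card (dl_sub (biUnion_subset.2 fun i _ => hUH i) W)
    have h6 : ∑ i : Fin s, 4 * (dl v w (A i) W).card ≤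
        ∑ i : Fin s, ((dl v w (univ.biUnion (B i)) W).card + 15) :=
      sum_le_sum fun i _ => hA3 i W hW hWu
    rw [← mul_sum, sum_add_distrib, sum_const, card_univ, Fintype.card_fin, smul_eq_mul] at h6
    omega

end Pool.Agent.Lib.MP_21a058_co.Thin
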