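import Pool.Agent.Lib.MP_21a058_co.Thin.One

/-! Thin trees, (G1): from the one-sided to the two-sided theorem (sixteen bases). -/

set_option linter.unusedSectionVars false
set_option linter.unusedVariables false

namespace Pool.Agent.Lib.MP_21a058_co.Thin

open Finset
open scoped Classical

variable {V E : Type} [Fintype V]

/-- the two sides of a cut -/
theorem card_dl_eq (v w : E → V) (B : Finset E) (W : Finset V) :
    (dl v w B W).card = (D v w B W).card + (D w v B W).card := by
  rw [← card_union_of_disjoint]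
  · congr 1
    ext e
    simp only [dl, D, mem_filter, mem_union]
    tauto
  · rw [disjoint_left]
    intro e h1 h2
    simp only [D, mem_filter] at h1 h2
    exact h1.2.2 h2.2.1

theorem D_mono (v w : E → V) {A B : Finset E} (h : A ⊆ B) (W : Finset V) :
    D v w A W ⊆ D v w B W := by
  intro e he
  simp only [D, mem_filter] at he ⊢
  exact ⟨h he.1, he.2⟩

theorem card_D_biUnion {ι : Type} (v w : E → V) (s : Finset ι) (B : ι → Finset E)
    (hd : ∀ i ∈ s, ∀ j ∈ s, i ≠ j → Disjoint (B i) (B j)) (W : Finset V) :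
    (D v w (s.biUnion B) W).card = ∑ i ∈ s, (D v w (B i) W).card := by
  have h1 : D v w (s.biUnion B) W = s.biUnion fun i => D v w (B i) W := by
    ext e
    simp only [D, mem_filter, mem_biUnion]
    constructor
    · rintro ⟨⟨i, hi, he⟩, h2⟩
      exact ⟨i, hi, he, h2⟩
    · rintro ⟨i, hi, he, h2⟩
      exact ⟨⟨i, hi, he⟩, h2⟩
  rw [h1]
  refine card_biUnion fun i hi j hj hij => ?_
  exact (hd i hi j hj hij).mono (filter_subset _ _) (filter_subset _ _)

theorem Fam.two_sided (L : Fam V) (v w : E → V) {H : Finset E}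
    (B : Fin 4 × Fin 4 → Finset E) (hd : ∀ i j, i ≠ j → Disjoint (B i) (B j))
    (hBH : ∀ i, B i ⊆ H) (hB : ∀ i, L.R v w (B i) = L.R v w H)
    (hc : ∀ i, (B i).card = L.R v w H) :
    ∃ A ⊆ univ.biUnion B, L.R v w A = L.R v w H ∧ ∀ W ∈ L.F, W ≠ univ →
      4 * (dl v w A W).card ≤ (dl v w (univ.biUnion B) W).card + 15 := by
  have hmono : ∀ {J J' : Finset E}, J ⊆ J' → L.R v w J ≤ L.R v w J' := fun h =>
    sum_le_sum fun Y _ => L.rk_mono v w Y h
  have hrow : ∀ i : Fin 4, univ.biUnion (fun j : Fin 4 => B (i, j)) ⊆ univ.biUnion B := by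
    intro i e he
    obtain ⟨j, -, hj⟩ := mem_biUnion.1 he
    exact mem_biUnion.2 ⟨(i, j), mem_univ _, hj⟩
  have hBB : univ.biUnion B ⊆ H := biUnion_subset.2 fun i _ => hBH i
  have hone : ∀ i : Fin 4, ∃ C ⊆ univ.biUnion (fun j : Fin 4 => B (i, j)),
      L.R v w C = L.R v w H ∧ C.card = L.R v w H ∧ ∀ W ∈ L.F, W ≠ univ →
      4 * (D v w C W).card ≤ (D v w (univ.biUnion fun j : Fin 4 => B (i, j)) W).card + (4 - 1) := by
    intro i
    refine L.one_sided v w (by norm_num) (fun j : Fin 4 => B (i, j)) ?_ (L.R v w H)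
      (fun j => hB (i, j)) (fun j => hc (i, j)) ?_
    · intro j j' hjj
      exact hd _ _ fun h => hjj (Prod.ext_iff.1 h).2
    · refine le_antisymm (hmono ((hrow i).trans hBB)) ?_
      rw [← hB (i, 0)]
      exact hmono (subset_biUnion_of_mem (fun j : Fin 4 => B (i, j)) (mem_univ (0 : Fin 4)))
  choose C hCs hCR hCc hCD using hone
  have hrd : ∀ i i' : Fin 4, i ≠ i' → Disjoint (univ.biUnion (fun j : Fin 4 => B (i, j)))
      (univ.biUnion (fun j : Fin 4 => B (i', j))) := by
    intro i i' hii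
    rw [disjoint_biUnion_left]
    intro j _
    rw [disjoint_biUnion_right]
    intro j' _
    exact hd _ _ fun h => hii (Prod.ext_iff.1 h).1
  have hCB : univ.biUnion C ⊆ univ.biUnion B :=
    biUnion_subset.2 fun i _ => (hCs i).trans (hrow i)
  obtain ⟨A, hAs, hAR, hAc, hAD⟩ := L.one_sided w v (a := 4) (by norm_num) C
    (fun i i' hii => (hrd i i' hii).mono (hCs i) (hCs i')) (L.R v w H)
    (fun i => by rw [L.R_symm, hCR i]) hCc (by
      rw [L.R_symm]
      refine le_antisymm (hmono (hCB.trans hBB)) ?_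
      rw [← hCR 0]
      exact hmono (subset_biUnion_of_mem C (mem_univ (0 : Fin 4))))
  rw [L.R_symm] at hAR
  refine ⟨A, hAs.trans hCB, hAR, ?_⟩
  intro W hW hWu
  have e1 := hAD W hW hWu
  have e2 := card_le_card (D_mono w v hCB W)
  have e3 := card_le_card (D_mono v w hAs W)
  have e4 := card_D_biUnion v w univ C
    (fun i _ i' _ hii => (hrd i i' hii).mono (hCs i) (hCs i')) W
  have e5 := card_D_biUnion v w univ (fun i : Fin 4 => univ.biUnion fun j : Fin 4 => B (i, j))
    (fun i _ i' _ hii => hrd i i' hii) W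
  have e6 : univ.biUnion (fun i : Fin 4 => univ.biUnion fun j : Fin 4 => B (i, j))
      = univ.biUnion B := by
    apply Subset.antisymm
    · exact biUnion_subset.2 fun i _ => hrow i
    · intro e he
      obtain ⟨⟨i, j⟩, -, hj⟩ := mem_biUnion.1 he
      exact mem_biUnion.2 ⟨i, mem_univ _, mem_biUnion.2 ⟨j, mem_univ _, hj⟩⟩
  rw [e6] at e5
  have e7 : ∑ i : Fin 4, 4 * (D v w (C i) W).card ≤
      ∑ i : Fin 4, ((D v w (univ.biUnion fun j : Fin 4 => B (i, j)) W).card + (4 - 1)) :=
    sum_le_sum fun i _ => hCD i W hW hWu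
  rw [← mul_sum, sum_add_distrib, sum_const, card_univ, Fintype.card_fin, smul_eq_mul, ← e4,
    ← e5] at e7
  rw [card_dl_eq, card_dl_eq]
  omega

end Pool.Agent.Lib.MP_21a058_co.Thin
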